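import Mathlib

set_option autoImplicit false

/-!
# Project ESB (helper161), job LOWW (helper299): many tuples with disjoint supports, abstract form
-/

namespace Pool.Agent.Q299.ESB.Loww

open Finset

/-- the dyadic sum -/
theorem dyad {n : ℝ} (hn : 0 < n) (M : ℕ) :
    ∑ j ∈ range (M + 1), (if n ≤ 2 ^ j then (1 / 2 : ℝ) ^ j else 0) ≤ 2 / n := by
  have h1 : ∀ M : ℕ, 2 ^ M < n →
      ∑ j ∈ range (M + 1), (if n ≤ 2 ^ j then (1 / 2 : ℝ) ^ j else 0) = 0 := by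
    intro M hM
    refine sum_eq_zero fun j hj => if_neg ?_
    rw [not_le]
    refine lt_of_le_of_lt ?_ hM
    exact pow_le_pow_right₀ (by norm_num) (by have := mem_range.1 hj; omega)
  have h2 : ∀ M : ℕ, n ≤ 2 ^ M →
      ∑ j ∈ range (M + 1), (if n ≤ 2 ^ j then (1 / 2 : ℝ) ^ j else 0) ≤ 2 / n - (1 / 2) ^ M := by
    intro M
    induction M with
    | zero =>
      intro h
      rw [pow_zero] at h
      rw [zero_add, sum_range_one, pow_zero, if_pos h, pow_zero]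
      have : 1 ≤ 1 / n := by rw [le_div_iff₀ hn]; linarith
      have e : 2 / n = 2 * (1 / n) := by ring
      rw [e]
      linarith
    | succ M ih =>
      intro h
      rw [sum_range_succ, if_pos h]
      have h3 : (1 / 2 : ℝ) ^ (M + 1) = (1 / 2) ^ M / 2 := by rw [pow_succ]; ring
      rcases le_or_gt n (2 ^ M) with h4 | h4
      · have := ih h4
        rw [h3]
        linarith
      · rw [h1 M h4, zero_add]
        have h5 : (1 / 2 : ℝ) ^ (M + 1) ≤ 1 / n := by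
          rw [one_div_pow]
          exact one_div_le_one_div_of_le hn h
        have e : 2 / n = 2 * (1 / n) := by ring
        rw [e]
        linarith
  rcases le_or_gt n (2 ^ M) with h | h
  · refine (h2 M h).trans ?_
    have : (0 : ℝ) ≤ (1 / 2) ^ M := by positivity
    linarith
  · rw [h1 M h]
    positivity

section

variable {α V : Type} {G : α → Prop} {n : α → ℝ} {S : α → Finset V} {x : V → ℝ}
  {η c0 t0 : ℝ} {N : ℕ}

open scoped Classical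

/-- one class: from the count to the harmonic sum -/
theorem one_step (hc0 : 0 < c0) (ht0 : 1 ≤ t0) (hn : ∀ D, G D → 1 ≤ n D) {q : Finset V}
    (H : ∀ t, t0 ≤ t → ∃ 𝒟 : Finset α, (∀ D ∈ 𝒟, G D ∧ n D ≤ t ∧ Disjoint (S D) q) ∧
      c0 * t ≤ 𝒟.card) {j0 : ℕ} (hj0 : t0 ≤ 2 ^ j0) (M : ℕ) :
    ∃ 𝒟 : Finset α, (∀ D ∈ 𝒟, G D ∧ n D ≤ 2 ^ M ∧ Disjoint (S D) q) ∧
      c0 / 2 * ((M : ℝ) - j0) ≤ ∑ D ∈ 𝒟, 1 / n D := by
  have H' : ∀ j : ℕ, ∃ 𝒟 : Finset α, (∀ D ∈ 𝒟, G D ∧ n D ≤ 2 ^ j ∧ Disjoint (S D) q) ∧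
      (j0 ≤ j → c0 * 2 ^ j ≤ 𝒟.card) := by
    intro j
    rcases le_or_gt j0 j with h | h
    · obtain ⟨𝒟, h1, h2⟩ := H (2 ^ j) (hj0.trans (pow_le_pow_right₀ (by norm_num) h))
      exact ⟨𝒟, h1, fun _ => h2⟩
    · exact ⟨∅, by simp, fun h' => absurd h' (by omega)⟩
  choose 𝒟 h𝒟 hcard using H'
  set 𝒰 : Finset α := (range (M + 1)).biUnion 𝒟 with h𝒰
  have hmem : ∀ D ∈ 𝒰, G D ∧ n D ≤ 2 ^ M ∧ Disjoint (S D) q := by
    intro D hD
    rw [h𝒰, mem_biUnion] at hD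
    obtain ⟨j, hj, hD⟩ := hD
    obtain ⟨h1, h2, h3⟩ := h𝒟 j D hD
    exact ⟨h1, h2.trans (pow_le_pow_right₀ (by norm_num) (by have := mem_range.1 hj; omega)), h3⟩
  refine ⟨𝒰, hmem, ?_⟩
  have h1 : ∀ D ∈ 𝒰, (1 / 2 : ℝ) * ∑ j ∈ range (M + 1), (if n D ≤ 2 ^ j then (1 / 2 : ℝ) ^ j else 0) ≤
      1 / n D := by
    intro D hD
    have := dyad (n := n D) (by have := hn D (hmem D hD).1; linarith) M
    have e : 2 / n D = 2 * (1 / n D) := by ring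
    rw [e] at this
    linarith
  refine le_trans ?_ (sum_le_sum h1)
  rw [← mul_sum, sum_comm]
  have h2 : ∀ j ∈ range (M + 1), (if j0 ≤ j then c0 else 0) ≤
      ∑ D ∈ 𝒰, (if n D ≤ 2 ^ j then (1 / 2 : ℝ) ^ j else 0) := by
    intro j hj
    split_ifs with hj0j
    · rw [← sum_filter, sum_const, nsmul_eq_mul]
      have h3 : 𝒟 j ⊆ 𝒰.filter fun D => n D ≤ 2 ^ j := by
        intro D hD
        rw [mem_filter]
        exact ⟨mem_biUnion.2 ⟨j, hj, hD⟩, (h𝒟 j D hD).2.1⟩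
      have h4 : c0 * 2 ^ j ≤ ((𝒰.filter fun D => n D ≤ 2 ^ j).card : ℝ) :=
        (hcard j hj0j).trans (by exact_mod_cast card_le_card h3)
      have h5 : (0 : ℝ) < (1 / 2) ^ j := by positivity
      calc c0 = (c0 * 2 ^ j) * (1 / 2) ^ j := by
            rw [one_div_pow]; field_simp
        _ ≤ _ := mul_le_mul_of_nonneg_right h4 h5.le
    · exact sum_nonneg fun D _ => by split_ifs <;> positivity
  refine le_trans ?_ (mul_le_mul_of_nonneg_left (sum_le_sum h2) (by norm_num))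
  rw [← sum_filter, sum_const, nsmul_eq_mul]
  have h6 : (range (M + 1)).filter (fun j => j0 ≤ j) = Finset.Ico j0 (M + 1) := by
    ext j
    simp only [mem_filter, mem_range, mem_Ico]
    omega
  rw [h6, Nat.card_Ico]
  have h7 : (M : ℝ) - j0 ≤ ((M + 1 - j0 : ℕ) : ℝ) := by
    have : M ≤ (M + 1 - j0) + j0 := by omega
    have h8 : (M : ℝ) ≤ ((M + 1 - j0 : ℕ) : ℝ) + j0 := by exact_mod_cast this
    linarith
  have h9 : 0 < c0 := hc0
  nlinarith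

/-- adding one entry -/
def consE (α : Type) (k : ℕ) : (Σ _ : Fin k → α, α) ↪ (Fin (k + 1) → α) where
  toFun p := Fin.cons p.2 p.1
  inj' := by
    rintro ⟨τ, D⟩ ⟨τ', D'⟩ h
    have h1 := Fin.cons_injective2 (α := fun _ : Fin (k + 1) => α) h
    obtain ⟨h2, h3⟩ := h1
    subst h2 h3
    rfl

theorem consE_apply (k : ℕ) (τ : Fin k → α) (D : α) :
    consE α k ⟨τ, D⟩ = (Fin.cons D τ : Fin (k + 1) → α) := rfl

/-- valid tuples -/
structure Val (G : α → Prop) (S : α → Finset V) {k : ℕ} (τ : Fin k → α) : Prop where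
  good : ∀ i, G (τ i)
  disj : ∀ i j, i ≠ j → Disjoint (S (τ i)) (S (τ j))

theorem Val.cons {k : ℕ} {τ : Fin k → α} (h : Val G S τ) {D : α} (hD : G D)
    (hd : Disjoint (S D) (univ.biUnion fun i => S (τ i))) :
    Val G S (Fin.cons D τ : Fin (k + 1) → α) := by
  have hd' : ∀ i, Disjoint (S D) (S (τ i)) := fun i =>
    hd.mono_right (subset_biUnion_of_mem (fun i => S (τ i)) (mem_univ i))
  refine ⟨fun i => ?_, fun i j hij => ?_⟩
  · refine Fin.cases ?_ (fun i => ?_) i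
    · rw [Fin.cons_zero]; exact hD
    · rw [Fin.cons_succ]; exact h.good i
  · revert hij
    refine Fin.cases ?_ (fun i => ?_) i <;> refine Fin.cases ?_ (fun j => ?_) j
    · intro h; exact absurd rfl h
    · intro _
      rw [Fin.cons_zero, Fin.cons_succ]
      exact hd' j
    · intro _
      rw [Fin.cons_zero, Fin.cons_succ]
      exact (hd' i).symm
    · intro hij
      rw [Fin.cons_succ, Fin.cons_succ]
      exact h.disj i j fun e => hij (by rw [e])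

theorem Val.sum_le {k : ℕ} {τ : Fin k → α} (h : Val G S τ) (hx : ∀ v, 0 ≤ x v)
    (hS : ∀ D, G D → ∑ v ∈ S D, x v ≤ η) (hη : 0 ≤ η) (hk : k ≤ N) :
    ∑ v ∈ univ.biUnion (fun i => S (τ i)), x v ≤ N * η := by
  rw [sum_biUnion (fun i _ j _ hij => h.disj i j hij)]
  refine (sum_le_card_nsmul _ _ η fun i _ => hS _ (h.good i)).trans ?_
  rw [card_univ, Fintype.card_fin, nsmul_eq_mul]
  have : (k : ℝ) ≤ N := by exact_mod_cast hk
  exact mul_le_mul_of_nonneg_right this hη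

/-- tuples: the harmonic sum -/
theorem tuples (hc0 : 0 < c0) (ht0 : 1 ≤ t0) (hη : 0 ≤ η) (hx : ∀ v, 0 ≤ x v)
    (hn : ∀ D, G D → 1 ≤ n D) (hS : ∀ D, G D → ∑ v ∈ S D, x v ≤ η)
    (H : ∀ t, t0 ≤ t → ∀ q : Finset V, ∑ v ∈ q, x v ≤ N * η → ∃ 𝒟 : Finset α,
      (∀ D ∈ 𝒟, G D ∧ n D ≤ t ∧ Disjoint (S D) q) ∧ c0 * t ≤ 𝒟.card)
    {j0 : ℕ} (hj0 : t0 ≤ 2 ^ j0) (M : ℕ) (hM : j0 ≤ M) (k : ℕ) (hk : k ≤ N) :
    ∃ 𝒯 : Finset (Fin k → α), (∀ τ ∈ 𝒯, Val G S τ ∧ ∏ i, n (τ i) ≤ (2 ^ M) ^ k) ∧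
      (c0 / 2 * ((M : ℝ) - j0)) ^ k ≤ ∑ τ ∈ 𝒯, 1 / ∏ i, n (τ i) := by
  induction k with
  | zero =>
    refine ⟨{fun i => i.elim0}, ?_, ?_⟩
    · intro τ _
      exact ⟨⟨fun i => i.elim0, fun i => i.elim0⟩, by simp⟩
    · rw [sum_singleton]
      simp
  | succ k ih =>
    obtain ⟨𝒯, h1, h2⟩ := ih (by omega)
    have h3 : ∀ τ : Fin k → α, ∃ 𝒟 : Finset α, τ ∈ 𝒯 →
        (∀ D ∈ 𝒟, G D ∧ n D ≤ 2 ^ M ∧ Disjoint (S D) (univ.biUnion fun i => S (τ i))) ∧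
        c0 / 2 * ((M : ℝ) - j0) ≤ ∑ D ∈ 𝒟, 1 / n D := by
      intro τ
      by_cases hτ : τ ∈ 𝒯
      · obtain ⟨𝒟, h4, h5⟩ := one_step hc0 ht0 hn
          (fun t ht => H t ht _ ((h1 τ hτ).1.sum_le hx hS hη (by omega))) hj0 M
        exact ⟨𝒟, fun _ => ⟨h4, h5⟩⟩
      · exact ⟨∅, fun h => absurd h hτ⟩
    choose 𝒟 h𝒟 using h3
    refine ⟨(𝒯.sigma 𝒟).map (consE α k), ?_, ?_⟩
    · intro τ' hτ'
      rw [mem_map] at hτ'
      obtain ⟨⟨τ, D⟩, hp, rfl⟩ := hτ'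
      rw [mem_sigma] at hp
      obtain ⟨hτ, hD⟩ := hp
      obtain ⟨h4, h5, h6⟩ := (h𝒟 τ hτ).1 D hD
      obtain ⟨h7, h8⟩ := h1 τ hτ
      rw [consE_apply]
      refine ⟨h7.cons h4 h6, ?_⟩
      rw [Fin.prod_univ_succ, Fin.cons_zero]
      simp only [Fin.cons_succ]
      rw [pow_succ, mul_comm]
      have h9 : 0 ≤ n D := by have := hn D h4; linarith
      exact mul_le_mul h8 h5 h9 (by positivity)
    · rw [sum_map, sum_sigma]
      have h4 : ∀ τ ∈ 𝒯, (c0 / 2 * ((M : ℝ) - j0)) * (1 / ∏ i, n (τ i)) ≤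
          ∑ D ∈ 𝒟 τ, 1 / ∏ i, n ((consE α k ⟨τ, D⟩) i) := by
        intro τ hτ
        have h5 : ∀ D ∈ 𝒟 τ, 1 / ∏ i, n ((consE α k ⟨τ, D⟩) i) = (1 / n D) * (1 / ∏ i, n (τ i)) := by
          intro D _
          rw [consE_apply, Fin.prod_univ_succ, Fin.cons_zero]
          simp only [Fin.cons_succ]
          rw [one_div_mul_one_div]
        rw [sum_congr rfl h5, ← sum_mul]
        have h6 : 0 ≤ 1 / ∏ i, n (τ i) := by
          refine div_nonneg zero_le_one (prod_nonneg fun i _ => ?_)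
          have := hn _ ((h1 τ hτ).1.good i)
          linarith
        exact mul_le_mul_of_nonneg_right (h𝒟 τ hτ).2 h6
      refine le_trans ?_ (sum_le_sum h4)
      rw [← mul_sum, pow_succ, mul_comm]
      refine mul_le_mul_of_nonneg_left h2 ?_
      have : (j0 : ℝ) ≤ M := by exact_mod_cast hM
      have : (0 : ℝ) ≤ (M : ℝ) - j0 := by linarith
      positivity

/-- the number of the tuples -/
theorem tuples_count (hN : 1 ≤ N) (hc0 : 0 < c0) (ht0 : 1 ≤ t0) (hη : 0 ≤ η) (hx : ∀ v, 0 ≤ x v)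
    (hn : ∀ D, G D → 1 ≤ n D) (hS : ∀ D, G D → ∑ v ∈ S D, x v ≤ η)
    (H : ∀ t, t0 ≤ t → ∀ q : Finset V, ∑ v ∈ q, x v ≤ N * η → ∃ 𝒟 : Finset α,
      (∀ D ∈ 𝒟, G D ∧ n D ≤ t ∧ Disjoint (S D) q) ∧ c0 * t ≤ 𝒟.card) :
    ∃ c X0 : ℝ, 0 < c ∧ 1 ≤ X0 ∧ ∀ X : ℝ, X0 ≤ X → ∃ 𝒯 : Finset (Fin N → α),
      (∀ τ ∈ 𝒯, Val G S τ ∧ ∏ i, n (τ i) ≤ X) ∧
      c * X * (1 + Real.log X) ^ (N - 1) ≤ 𝒯.card := by
  obtain ⟨k, rfl⟩ : ∃ k, N = k + 1 := ⟨N - 1, by omega⟩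
  obtain ⟨j0, hj0⟩ : ∃ j0 : ℕ, t0 ≤ 2 ^ j0 := by
    obtain ⟨j0, h⟩ := pow_unbounded_of_one_lt t0 (one_lt_two : (1 : ℝ) < 2)
    exact ⟨j0, h.le⟩
  refine ⟨c0 * (c0 / (4 * (k + 1))) ^ k, Real.exp (2 * (k + 1) * (j0 + 1) + 1), by positivity,
    Real.one_le_exp (by positivity), fun X hX => ?_⟩
  have hXpos : 0 < X := (Real.exp_pos _).trans_le hX
  set L := Real.log X with hL
  have hLX : Real.exp L = X := Real.exp_log hXpos
  have hL0 : 2 * ((k : ℝ) + 1) * (j0 + 1) + 1 ≤ L := by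
    rw [hL, Real.le_log_iff_exp_le hXpos]
    exact hX
  have hLpos : 0 ≤ L := le_trans (by positivity) hL0
  set M : ℕ := ⌊L / (k + 1)⌋₊ with hM
  have hk1 : (0 : ℝ) < (k : ℝ) + 1 := by positivity
  have hM1 : (M : ℝ) * (k + 1) ≤ L := by
    rw [← le_div_iff₀ hk1]
    exact Nat.floor_le (by positivity)
  have hM2 : L / (k + 1) - 1 ≤ M := by
    have := Nat.lt_floor_add_one (L / ((k : ℝ) + 1))
    rw [← hM] at this
    linarith
  have hM3 : (1 + L) / (2 * (k + 1)) ≤ (M : ℝ) - j0 := by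
    have h1 : (1 + L) / (2 * ((k : ℝ) + 1)) + (1 + j0) ≤ L / (k + 1) := by
      rw [div_add' _ _ _ (by positivity), div_le_div_iff₀ (by positivity) hk1]
      nlinarith
    linarith
  have hjM : j0 ≤ M := by
    have h1 : (0 : ℝ) ≤ (1 + L) / (2 * (k + 1)) := by positivity
    have : (j0 : ℝ) ≤ M := by linarith
    exact_mod_cast this
  obtain ⟨𝒯, h1, h2⟩ := tuples hc0 ht0 hη hx hn hS H hj0 M hjM k (by omega)
  have hpow : ((2 : ℝ) ^ M) ^ k * t0 ≤ X := by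
    have h3 : t0 ≤ 2 ^ M := hj0.trans (pow_le_pow_right₀ (by norm_num) hjM)
    have h4 : (2 : ℝ) ^ M ≤ Real.exp M := by
      have : (2 : ℝ) ≤ Real.exp 1 := by
        have := Real.add_one_le_exp (1 : ℝ)
        linarith
      calc (2 : ℝ) ^ M ≤ (Real.exp 1) ^ M := pow_le_pow_left₀ (by norm_num) this M
        _ = Real.exp M := by rw [← Real.exp_nat_mul, mul_one]
    calc ((2 : ℝ) ^ M) ^ k * t0 ≤ (2 ^ M) ^ k * 2 ^ M := by gcongr
      _ = (2 ^ M) ^ (k + 1) := (pow_succ _ _).symm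
      _ ≤ (Real.exp M) ^ (k + 1) := by gcongr
      _ = Real.exp (M * (k + 1)) := by
        rw [← Real.exp_nat_mul]
        congr 1
        push_cast
        ring
      _ ≤ Real.exp L := Real.exp_le_exp.2 hM1
      _ = X := hLX
  have hnpos : ∀ τ ∈ 𝒯, 0 < ∏ i, n (τ i) := fun τ hτ => prod_pos fun i _ => by
    have := hn _ ((h1 τ hτ).1.good i)
    linarith
  have h3 : ∀ τ : Fin k → α, ∃ 𝒟 : Finset α, τ ∈ 𝒯 →
      (∀ D ∈ 𝒟, G D ∧ n D ≤ X / ∏ i, n (τ i) ∧ Disjoint (S D) (univ.biUnion fun i => S (τ i))) ∧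
      c0 * (X / ∏ i, n (τ i)) ≤ 𝒟.card := by
    intro τ
    by_cases hτ : τ ∈ 𝒯
    · have ht : t0 ≤ X / ∏ i, n (τ i) := by
        rw [le_div_iff₀ (hnpos τ hτ)]
        have := (h1 τ hτ).2
        have h5 : 0 < t0 := by linarith
        calc t0 * ∏ i, n (τ i) ≤ t0 * (2 ^ M) ^ k := by gcongr
          _ = (2 ^ M) ^ k * t0 := mul_comm _ _
          _ ≤ X := hpow
      obtain ⟨𝒟, h4, h5⟩ := H _ ht _ ((h1 τ hτ).1.sum_le hx hS hη (by omega))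
      exact ⟨𝒟, fun _ => ⟨h4, h5⟩⟩
    · exact ⟨∅, fun h => absurd h hτ⟩
  choose 𝒟 h𝒟 using h3
  refine ⟨(𝒯.sigma 𝒟).map (consE α k), ?_, ?_⟩
  · intro τ' hτ'
    rw [mem_map] at hτ'
    obtain ⟨⟨τ, D⟩, hp, rfl⟩ := hτ'
    rw [mem_sigma] at hp
    obtain ⟨hτ, hD⟩ := hp
    obtain ⟨h4, h5, h6⟩ := (h𝒟 τ hτ).1 D hD
    rw [consE_apply]
    refine ⟨(h1 τ hτ).1.cons h4 h6, ?_⟩
    rw [Fin.prod_univ_succ, Fin.cons_zero]
    simp only [Fin.cons_succ]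
    rwa [le_div_iff₀ (hnpos τ hτ)] at h5
  · rw [card_map, card_sigma, Nat.cast_sum, Nat.add_sub_cancel]
    have h4 : ∀ τ ∈ 𝒯, (c0 * X) * (1 / ∏ i, n (τ i)) ≤ ((𝒟 τ).card : ℝ) := by
      intro τ hτ
      refine le_trans (le_of_eq ?_) (h𝒟 τ hτ).2
      ring
    refine le_trans ?_ (sum_le_sum h4)
    rw [← mul_sum]
    have h5 : (c0 / (4 * (k + 1))) ^ k * (1 + L) ^ k ≤ (c0 / 2 * ((M : ℝ) - j0)) ^ k := by
      rw [← mul_pow]
      refine pow_le_pow_left₀ (by positivity) ?_ k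
      calc c0 / (4 * (k + 1)) * (1 + L) = c0 / 2 * ((1 + L) / (2 * (k + 1))) := by
            field_simp
            ring
        _ ≤ _ := mul_le_mul_of_nonneg_left hM3 (by positivity)
    calc c0 * (c0 / (4 * (k + 1))) ^ k * X * (1 + L) ^ k
        = (c0 * X) * ((c0 / (4 * (k + 1))) ^ k * (1 + L) ^ k) := by ring
      _ ≤ (c0 * X) * ∑ τ ∈ 𝒯, 1 / ∏ i, n (τ i) :=
        mul_le_mul_of_nonneg_left (h5.trans h2) (by positivity)

end

end Pool.Agent.Q299.ESB.Loww
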