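import Pool.Agent.Q151.ESB.IdlA

set_option autoImplicit false

/-!
# Project ESB (helper161), job LOWW (helper299): small primes (an elementary substitute for the theorem of Mertens)
-/

namespace Pool.Agent.Q299.ESB.Loww

open NumberField IsDedekindDomain Finset
open Pool.Agent.Q237.ESN (ids mem_ids ids_le one_le_nm)
open Pool.Agent.Q151.ESB (sum_inv_le)

open scoped Classical

section

variable {F : Type} [Field F] [NumberField F]

theorem two_le_N (v : HeightOneSpectrum (𝓞 F)) : (2 : ℝ) ≤ ((Ideal.absNorm v.asIdeal : ℕ) : ℝ) := by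
  have h0 : Ideal.absNorm v.asIdeal ≠ 0 := by
    rw [Ne, Ideal.absNorm_eq_zero_iff]
    exact v.ne_bot
  have h1 : Ideal.absNorm v.asIdeal ≠ 1 := by
    rw [Ne, Ideal.absNorm_eq_one_iff]
    exact v.isPrime.ne_top
  have : 2 ≤ Ideal.absNorm v.asIdeal := by omega
  exact_mod_cast this

omit [NumberField F] in
theorem asIdeal_inj : Function.Injective
    (fun v : HeightOneSpectrum (𝓞 F) => v.asIdeal) := fun _ _ h => HeightOneSpectrum.ext h

variable (F) in
/-- the primes of norm at most `x` -/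
noncomputable def prs (x : ℝ) : Finset (HeightOneSpectrum (𝓞 F)) :=
  ((ids F x).finite_toSet.preimage (asIdeal_inj (F := F)).injOn).toFinset

theorem mem_prs {x : ℝ} {v : HeightOneSpectrum (𝓞 F)} :
    v ∈ prs F x ↔ ((Ideal.absNorm v.asIdeal : ℕ) : ℝ) ≤ x := by
  unfold prs
  rw [Set.Finite.mem_toFinset, Set.mem_preimage, mem_coe, mem_ids]
  exact ⟨fun h => h.2, fun h => ⟨v.ne_bot, h⟩⟩

theorem eq_of_dvd {v w : HeightOneSpectrum (𝓞 F)} (h : v.asIdeal ∣ w.asIdeal) : v = w := by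
  have h2 : w.asIdeal ≤ v.asIdeal := Ideal.dvd_iff_le.1 h
  exact (HeightOneSpectrum.ext (w.isMaximal.eq_of_le v.isPrime.ne_top h2)).symm

theorem pair_fib (A : Finset (HeightOneSpectrum (𝓞 F))) (p : HeightOneSpectrum (𝓞 F) × HeightOneSpectrum (𝓞 F)) :
    ((A ×ˢ A).filter fun q => q.1.asIdeal * q.2.asIdeal = p.1.asIdeal * p.2.asIdeal).card ≤ 2 := by
  have h : ((A ×ˢ A).filter fun q => q.1.asIdeal * q.2.asIdeal = p.1.asIdeal * p.2.asIdeal) ⊆
      {p, p.swap} := by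
    intro q hq
    obtain ⟨-, hq⟩ := mem_filter.1 hq
    rw [mem_insert, mem_singleton]
    have h1 : q.1.asIdeal ∣ p.1.asIdeal * p.2.asIdeal := ⟨_, hq.symm⟩
    rcases (q.1.prime.dvd_mul).1 h1 with h2 | h2
    · left
      have h3 := eq_of_dvd h2
      rw [h3] at hq
      have h4 := mul_left_cancel₀ p.1.ne_bot hq
      exact Prod.ext h3 (HeightOneSpectrum.ext h4)
    · right
      have h3 := eq_of_dvd h2
      rw [h3, mul_comm p.1.asIdeal] at hq
      have h4 := mul_left_cancel₀ p.2.ne_bot hq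
      exact Prod.ext h3 (HeightOneSpectrum.ext h4)
  exact (card_le_card h).trans card_le_two

variable (F)

/-- the square of the sum of the inverses of the norms of the primes -/
theorem sq_sum : ∃ C : ℝ, 0 < C ∧ ∀ z : ℝ, 1 ≤ z →
    (∑ v ∈ prs F z, 1 / ((Ideal.absNorm v.asIdeal : ℕ) : ℝ)) ^ 2 ≤ 2 * C * (1 + 2 * Real.log z) := by
  obtain ⟨C, hC, h⟩ := sum_inv_le F
  refine ⟨C, hC, fun z hz => ?_⟩
  set A := prs F z with hA
  set φ : HeightOneSpectrum (𝓞 F) × HeightOneSpectrum (𝓞 F) → Ideal (𝓞 F) :=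
    fun p => p.1.asIdeal * p.2.asIdeal with hφ
  have h1 : (∑ v ∈ A, 1 / ((Ideal.absNorm v.asIdeal : ℕ) : ℝ)) ^ 2 =
      ∑ p ∈ A ×ˢ A, 1 / ((Ideal.absNorm (φ p) : ℕ) : ℝ) := by
    rw [sq, sum_mul_sum, sum_product]
    refine sum_congr rfl fun v _ => sum_congr rfl fun w _ => ?_
    rw [hφ]
    simp only [map_mul, Nat.cast_mul]
    rw [one_div_mul_one_div]
  rw [h1, sum_comp (fun I : Ideal (𝓞 F) => 1 / ((Ideal.absNorm I : ℕ) : ℝ)) φ]
  have h2 : ∀ I ∈ (A ×ˢ A).image φ, ((A ×ˢ A).filter fun q => φ q = I).card •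
      (1 / ((Ideal.absNorm I : ℕ) : ℝ)) ≤ 2 * (1 / ((Ideal.absNorm I : ℕ) : ℝ)) := by
    intro I hI
    obtain ⟨p, _, rfl⟩ := mem_image.1 hI
    rw [nsmul_eq_mul]
    have h3 : (((A ×ˢ A).filter fun q => φ q = φ p).card : ℝ) ≤ 2 := by
      exact_mod_cast pair_fib A p
    exact mul_le_mul_of_nonneg_right h3 (by positivity)
  refine (sum_le_sum h2).trans ?_
  rw [← mul_sum]
  have h4 := h (z * z) (by nlinarith) ((A ×ˢ A).image φ) (by
    intro I hI
    obtain ⟨p, hp, rfl⟩ := mem_image.1 hI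
    rw [mem_product] at hp
    refine ⟨mul_ne_zero p.1.ne_bot p.2.ne_bot, ?_⟩
    rw [hφ]
    simp only [map_mul, Nat.cast_mul]
    exact mul_le_mul (mem_prs.1 hp.1) (mem_prs.1 hp.2) (by positivity) (by linarith))
  rw [Real.log_mul (by linarith) (by linarith)] at h4
  linarith

/-- the tail of the sum of the inverse squares of the norms -/
theorem tail_le : ∃ C : ℝ, 0 < C ∧ ∀ (k : ℕ) (s : Finset (Ideal (𝓞 F))),
    (∀ I ∈ s, I ≠ ⊥ ∧ (2 : ℝ) ^ k < ((Ideal.absNorm I : ℕ) : ℝ)) →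
    ∑ I ∈ s, 1 / (((Ideal.absNorm I : ℕ) : ℝ)) ^ 2 ≤ C / 2 ^ k := by
  obtain ⟨C, hC, hcnt⟩ := ids_le F
  refine ⟨4 * C, by positivity, ?_⟩
  intro k s hs
  set f : Ideal (𝓞 F) → ℕ := fun I => Nat.log 2 (Ideal.absNorm I) with hf
  have h1 : ∑ I ∈ s, 1 / (((Ideal.absNorm I : ℕ) : ℝ)) ^ 2 =
      ∑ j ∈ s.image f, ∑ I ∈ s with f I = j, 1 / (((Ideal.absNorm I : ℕ) : ℝ)) ^ 2 :=
    (Finset.sum_fiberwise_of_maps_to (fun I hI => Finset.mem_image_of_mem f hI) _).symm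
  rw [h1]
  have h2 : ∀ j ∈ s.image f, ∑ I ∈ s with f I = j, 1 / (((Ideal.absNorm I : ℕ) : ℝ)) ^ 2 ≤
      (2 * C) * (1 / 2) ^ j := by
    intro j _
    have h3 : ∀ I ∈ s.filter (fun I => f I = j), 1 / (((Ideal.absNorm I : ℕ) : ℝ)) ^ 2 ≤
        1 / ((2 : ℝ) ^ j) ^ 2 := by
      intro I hI
      rw [Finset.mem_filter] at hI
      have h4 : Ideal.absNorm I ≠ 0 := by
        rw [Ne, Ideal.absNorm_eq_zero_iff]
        exact (hs I hI.1).1
      have h5 : 2 ^ j ≤ Ideal.absNorm I := by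
        rw [← hI.2]
        exact Nat.pow_log_le_self 2 h4
      have h6 : (2 : ℝ) ^ j ≤ ((Ideal.absNorm I : ℕ) : ℝ) := by exact_mod_cast h5
      apply one_div_le_one_div_of_le (by positivity)
      exact pow_le_pow_left₀ (by positivity) h6 2
    refine (Finset.sum_le_card_nsmul _ _ _ h3).trans ?_
    have h7 : s.filter (fun I => f I = j) ⊆ ids F ((2 : ℝ) ^ (j + 1)) := by
      intro I hI
      rw [Finset.mem_filter] at hI
      rw [mem_ids]
      refine ⟨(hs I hI.1).1, ?_⟩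
      have h5 : Ideal.absNorm I < 2 ^ (j + 1) := by
        rw [← hI.2]
        exact Nat.lt_pow_succ_log_self (by norm_num) _
      exact_mod_cast h5.le
    have h8 : ((s.filter (fun I => f I = j)).card : ℝ) ≤ C * 2 ^ (j + 1) := by
      refine le_trans ?_ (hcnt ((2 : ℝ) ^ (j + 1)) (by positivity))
      exact_mod_cast Finset.card_le_card h7
    rw [nsmul_eq_mul]
    have h9 : (0 : ℝ) < 2 ^ j := by positivity
    calc ((s.filter (fun I => f I = j)).card : ℝ) * (1 / ((2 : ℝ) ^ j) ^ 2) ≤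
        (C * 2 ^ (j + 1)) * (1 / ((2 : ℝ) ^ j) ^ 2) := by gcongr
      _ = (2 * C) * (1 / 2) ^ j := by
        rw [one_div_pow]
        field_simp
        ring
  refine (Finset.sum_le_sum h2).trans ?_
  rw [← Finset.mul_sum]
  have hk : ∀ j ∈ s.image f, k ≤ j := by
    intro j hj
    obtain ⟨I, hI, rfl⟩ := mem_image.1 hj
    have h5 := (hs I hI).2
    have h6 : 2 ^ k < Ideal.absNorm I := by exact_mod_cast h5
    exact Nat.le_log_of_pow_le (by norm_num) h6.le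
  have h10 : ∑ j ∈ s.image f, ((1 : ℝ) / 2) ^ j ≤ (1 / 2) ^ k * 2 := by
    revert hk
    generalize s.image f = J
    intro hk
    have h11 : Summable (fun j : ℕ => ((1 : ℝ) / 2) ^ j) := summable_geometric_two
    have h12 : ∑ j ∈ J, ((1 : ℝ) / 2) ^ j =
        ∑ j ∈ J.image (fun j => j - k), (1 / 2) ^ k * ((1 : ℝ) / 2) ^ j := by
      rw [sum_image]
      · refine sum_congr rfl fun j hj => ?_
        rw [← pow_add, Nat.add_sub_cancel' (hk j hj)]
      · intro a ha b hb hab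
        have h13 := hk a ha
        have h14 := hk b hb
        simp only at hab
        omega
    rw [h12, ← mul_sum]
    refine mul_le_mul_of_nonneg_left ?_ (by positivity)
    exact (h11.sum_le_tsum _ (fun j _ => by positivity)).trans (le_of_eq tsum_geometric_two)
  calc 2 * C * ∑ j ∈ s.image f, ((1 : ℝ) / 2) ^ j ≤ 2 * C * ((1 / 2) ^ k * 2) :=
        mul_le_mul_of_nonneg_left h10 (by positivity)
    _ = 4 * C / 2 ^ k := by rw [one_div_pow]; ring

variable {F}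

theorem exp_le_one_sub {x : ℝ} (h0 : 0 ≤ x) (h1 : x ≤ 1 / 2) : Real.exp (-(2 * x)) ≤ 1 - x := by
  have h2 := Real.add_one_le_exp (2 * x)
  rw [Real.exp_neg]
  have h3 : (Real.exp (2 * x))⁻¹ ≤ (2 * x + 1)⁻¹ := inv_anti₀ (by linarith) h2
  refine h3.trans ?_
  rw [inv_le_iff_one_le_mul₀ (by linarith)]
  nlinarith

theorem inv_N_le (v : HeightOneSpectrum (𝓞 F)) : 1 / ((Ideal.absNorm v.asIdeal : ℕ) : ℝ) ≤ 1 / 2 :=
  one_div_le_one_div_of_le (by norm_num) (two_le_N v)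

theorem prod_ge (P : Finset (HeightOneSpectrum (𝓞 F))) :
    Real.exp (-(2 * ∑ v ∈ P, 1 / ((Ideal.absNorm v.asIdeal : ℕ) : ℝ))) ≤
      ∏ v ∈ P, (1 - 1 / ((Ideal.absNorm v.asIdeal : ℕ) : ℝ)) := by
  rw [mul_sum, ← sum_neg_distrib, Real.exp_sum]
  refine prod_le_prod (fun v _ => (Real.exp_pos _).le) fun v _ => ?_
  exact exp_le_one_sub (by positivity) (inv_N_le v)

/-- the choice of the set of the small primes -/
theorem small_primes (K : ℝ) (hK : 0 < K) (P0 : Finset (HeightOneSpectrum (𝓞 F))) :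
    ∃ P : Finset (HeightOneSpectrum (𝓞 F)), P0 ⊆ P ∧
      ∀ A : Finset (HeightOneSpectrum (𝓞 F)), Disjoint A P →
        K * ∑ v ∈ A, 1 / (((Ideal.absNorm v.asIdeal : ℕ) : ℝ)) ^ 2 ≤
          (∏ v ∈ P, (1 - 1 / ((Ideal.absNorm v.asIdeal : ℕ) : ℝ))) ^ 2 := by
  obtain ⟨C, hC, hsq⟩ := sq_sum F
  obtain ⟨T, hT, htail⟩ := tail_le F
  set r := Real.sqrt (2 * C) with hr
  have hr0 : 0 ≤ r := Real.sqrt_nonneg _
  have hr2 : r ^ 2 = 2 * C := Real.sq_sqrt (by positivity)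
  set b := Real.log (K * T) with hb
  obtain ⟨k0, hk0⟩ := pow_unbounded_of_one_lt
    (∑ v ∈ P0, ((Ideal.absNorm v.asIdeal : ℕ) : ℝ)) (one_lt_two : (1 : ℝ) < 2)
  obtain ⟨m, hm⟩ := exists_nat_ge (16 * r + 2 * |b| + 2 + k0)
  have hb0 := abs_nonneg b
  have hm2 : (2 : ℝ) ≤ m := by
    have : (0 : ℝ) ≤ k0 := by positivity
    linarith
  have hk0m : k0 ≤ m ^ 2 := by
    have h1 : (k0 : ℝ) ≤ m := by linarith
    have h2 : k0 ≤ m := by exact_mod_cast h1
    nlinarith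
  refine ⟨prs F (2 ^ (m ^ 2)), ?_, ?_⟩
  · intro v hv
    rw [mem_prs]
    have h1 : ((Ideal.absNorm v.asIdeal : ℕ) : ℝ) ≤
        ∑ v ∈ P0, ((Ideal.absNorm v.asIdeal : ℕ) : ℝ) :=
      single_le_sum (f := fun v : HeightOneSpectrum (𝓞 F) => ((Ideal.absNorm v.asIdeal : ℕ) : ℝ))
        (fun v _ => by positivity) hv
    exact h1.trans (hk0.le.trans (pow_le_pow_right₀ (by norm_num) hk0m))
  · intro A hA
    have h1 : ∑ v ∈ A, 1 / (((Ideal.absNorm v.asIdeal : ℕ) : ℝ)) ^ 2 ≤ T / 2 ^ (m ^ 2) := by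
      have := htail (m ^ 2) (A.image fun v => v.asIdeal) (by
        intro I hI
        obtain ⟨v, hv, rfl⟩ := mem_image.1 hI
        refine ⟨v.ne_bot, ?_⟩
        by_contra hcon
        exact (disjoint_left.1 hA hv) (mem_prs.2 (not_lt.1 hcon)))
      rwa [sum_image (fun a _ b _ h => asIdeal_inj h)] at this
    set S1 := ∑ v ∈ prs F (2 ^ (m ^ 2)), 1 / ((Ideal.absNorm v.asIdeal : ℕ) : ℝ) with hS1
    have h2 : S1 ^ 2 ≤ 2 * C * (1 + 2 * Real.log (2 ^ (m ^ 2))) := hsq _ (one_le_pow₀ (by norm_num))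
    have h3 : S1 ≤ 2 * m * r := by
      refine abs_le_of_sq_le_sq' ?_ (by positivity) |>.2
      refine h2.trans ?_
      rw [Real.log_pow, mul_pow, hr2]
      have h4 : Real.log 2 ≤ 1 := by
        have := Real.log_two_lt_d9
        linarith
      have h5 : ((m ^ 2 : ℕ) : ℝ) * Real.log 2 ≤ (m : ℝ) ^ 2 := by
        push_cast
        nlinarith [sq_nonneg (m : ℝ)]
      have h6 : 1 + 2 * (((m ^ 2 : ℕ) : ℝ) * Real.log 2) ≤ (2 * (m : ℝ)) ^ 2 := by nlinarith
      calc 2 * C * (1 + 2 * (((m ^ 2 : ℕ) : ℝ) * Real.log 2)) ≤ 2 * C * (2 * (m : ℝ)) ^ 2 :=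
            mul_le_mul_of_nonneg_left h6 (by positivity)
        _ = (2 * (m : ℝ)) ^ 2 * (2 * C) := by ring
    have h4 : Real.exp (-(4 * m * r)) ≤
        ∏ v ∈ prs F (2 ^ (m ^ 2)), (1 - 1 / ((Ideal.absNorm v.asIdeal : ℕ) : ℝ)) := by
      refine le_trans ?_ (prod_ge _)
      rw [← hS1]
      exact Real.exp_le_exp.2 (by linarith)
    calc K * ∑ v ∈ A, 1 / (((Ideal.absNorm v.asIdeal : ℕ) : ℝ)) ^ 2 ≤ K * (T / 2 ^ (m ^ 2)) :=
          mul_le_mul_of_nonneg_left h1 hK.le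
      _ ≤ (Real.exp (-(4 * m * r))) ^ 2 := by
        have e1 : K * (T / 2 ^ (m ^ 2)) = Real.exp (b - (m : ℝ) ^ 2 * Real.log 2) := by
          rw [Real.exp_sub, Real.exp_log (by positivity)]
          have : Real.exp ((m : ℝ) ^ 2 * Real.log 2) = 2 ^ (m ^ 2) := by
            have h5 : (m : ℝ) ^ 2 = ((m ^ 2 : ℕ) : ℝ) := by push_cast; ring
            rw [h5, Real.exp_nat_mul, Real.exp_log (by norm_num)]
          rw [this]
          ring
        rw [e1, ← Real.exp_nat_mul]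
        refine Real.exp_le_exp.2 ?_
        push_cast
        have h5 : (1 / 2 : ℝ) ≤ Real.log 2 := by
          have := Real.log_two_gt_d9
          linarith
        have h6 : b ≤ |b| := le_abs_self b
        have h7 : (m : ℝ) ^ 2 * (1 / 2) ≤ (m : ℝ) ^ 2 * Real.log 2 :=
          mul_le_mul_of_nonneg_left h5 (by positivity)
        have h8 : (m : ℝ) * (16 * r + 2 * |b| + 2) ≤ m * m :=
          mul_le_mul_of_nonneg_left (by have : (0 : ℝ) ≤ k0 := by positivity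
                                        linarith) (by linarith)
        nlinarith [mul_nonneg (by linarith : (0 : ℝ) ≤ (m : ℝ) - 1) hb0]
      _ ≤ _ := pow_le_pow_left₀ (Real.exp_pos _).le h4 2

end

end Pool.Agent.Q299.ESB.Loww
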