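import Pool.Agent.Q299.ESB.LowwB
import Pool.Agent.Q299.ESB.TupA
import Pool.Agent.Q299.ESB.TupP

set_option autoImplicit false

/-!
# Project ESB (helper161), job LOWW (helper299): the lower bound for the number of the tuples of classes
-/

namespace Pool.Agent.Q299.ESB.Loww

open Finset NumberField IsDedekindDomain Pool.Agent.Q161.ESB Pool.Agent.Q210.ESB
open Pool.Agent.Q161.ESN (oddAt_mul_sq oddNorm_mul_sq)
open Pool.Agent.Q237.ESN (ids mem_ids ids_le)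
open Pool.Agent.Q151.ESB (prod_ideal_ne prod_ideal_inj norm_prod_ideal)

open scoped Classical

section

variable {F : Type} [Field F] [NumberField F]

theorem supp_rep (D : F) : supp (rep D) = supp D := by
  by_cases hD : D = 0
  · obtain ⟨s, _, h⟩ := rep_spec D
    rw [h, hD, zero_mul]
  · ext v
    obtain ⟨s, hs0, h⟩ := rep_spec D
    rw [mem_supp (rep_ne hD), mem_supp hD, h, oddAt_mul_sq hs0]

theorem one_le_oddNorm {D : F} (hD : D ≠ 0) : (1 : ℝ) ≤ ((oddNorm D : ℕ) : ℝ) := by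
  rw [oddNorm_eq hD]
  calc (1 : ℝ) = ∏ _v ∈ supp D, (1 : ℝ) := by rw [prod_const_one]
    _ ≤ _ := prod_le_prod (fun _ _ => zero_le_one) fun v _ => one_le_N v

theorem oddNorm_rep {D : F} (hD : D ≠ 0) : ((oddNorm (rep D) : ℕ) : ℝ) = ((oddNorm D : ℕ) : ℝ) := by
  rw [oddNorm_eq (rep_ne hD), oddNorm_eq hD, supp_rep]

variable (F) in
/-- the number of the classes with a given prime in the support -/
theorem count_le (cls : S_CLS) : ∃ C1 : ℝ, 0 < C1 ∧ ∀ (t : ℝ) (u : HeightOneSpectrum (𝓞 F))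
    (𝒟 : Finset F), 0 ≤ t → Twists t 𝒟 → (∀ D ∈ 𝒟, u ∈ supp D) →
    (𝒟.card : ℝ) ≤ C1 * t * (1 / ((Ideal.absNorm u.asIdeal : ℕ) : ℝ)) := by
  obtain ⟨C, hC⟩ := cls F
  obtain ⟨C2, hC2, hids⟩ := ids_le F
  refine ⟨(C + 1) * C2, by positivity, ?_⟩
  intro t u 𝒟 ht hT hu
  have hNu : (0 : ℝ) < ((Ideal.absNorm u.asIdeal : ℕ) : ℝ) := by
    have := one_le_N u
    linarith
  set φ : F → Ideal (𝓞 F) := fun D => ∏ v ∈ (supp D).erase u, v.asIdeal with hφ
  have h1 : 𝒟.card ≤ C * (𝒟.image φ).card := by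
    refine card_le_mul_card_image 𝒟 C ?_
    intro I hI
    obtain ⟨D0, hD0, rfl⟩ := mem_image.1 hI
    refine hC {v | OddAt v D0} _ ?_ ?_
    · intro D hD
      obtain ⟨hD, he⟩ := mem_filter.1 hD
      refine ⟨hT.ne D hD, fun v => ?_⟩
      have h2 : (supp D).erase u = (supp D0).erase u := prod_ideal_inj he
      have h3 : supp D = supp D0 := by
        rw [← insert_erase (hu D hD), ← insert_erase (hu D0 hD0), h2]
      rw [← mem_supp (hT.ne D hD), h3, mem_supp (hT.ne D0 hD0)]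
      rfl
    · intro D hD D' hD' hne
      exact hT.dist D (mem_filter.1 hD).1 D' (mem_filter.1 hD').1 hne
  have h2 : 𝒟.image φ ⊆ ids F (t * (1 / ((Ideal.absNorm u.asIdeal : ℕ) : ℝ))) := by
    intro I hI
    obtain ⟨D, hD, rfl⟩ := mem_image.1 hI
    rw [mem_ids]
    refine ⟨prod_ideal_ne _, ?_⟩
    rw [hφ]
    simp only
    rw [norm_prod_ideal, mul_one_div, le_div_iff₀ hNu, mul_comm,
      mul_prod_erase (supp D) (fun v => ((Ideal.absNorm v.asIdeal : ℕ) : ℝ)) (hu D hD),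
      ← oddNorm_eq (hT.ne D hD)]
    exact hT.norm D hD
  have h3 : ((𝒟.image φ).card : ℝ) ≤ C2 * (t * (1 / ((Ideal.absNorm u.asIdeal : ℕ) : ℝ))) :=
    le_trans (by exact_mod_cast card_le_card h2) (hids _ (by positivity))
  have h4 : (𝒟.card : ℝ) ≤ C * ((𝒟.image φ).card : ℝ) := by exact_mod_cast h1
  calc (𝒟.card : ℝ) ≤ C * ((𝒟.image φ).card : ℝ) := h4
    _ ≤ C * (C2 * (t * (1 / ((Ideal.absNorm u.asIdeal : ℕ) : ℝ)))) :=
      mul_le_mul_of_nonneg_left h3 (by positivity)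
    _ ≤ (C + 1) * (C2 * (t * (1 / ((Ideal.absNorm u.asIdeal : ℕ) : ℝ)))) :=
      mul_le_mul_of_nonneg_right (by linarith) (by positivity)
    _ = _ := by ring

variable (F) in
/-- many good classes with a support disjoint from a given small set -/
theorem classes (lowa : S_LOWA) (cls : S_CLS) (N : ℕ) (hN : 1 ≤ N) :
    ∃ (G : F → Prop) (η c0 t0 : ℝ), 0 < c0 ∧ 1 ≤ t0 ∧ 0 ≤ η ∧ (∀ D, G D → D ≠ 0 ∧ rep D = D) ∧
      (∀ D, G D → ∑ v ∈ supp D, 1 / ((Ideal.absNorm v.asIdeal : ℕ) : ℝ) ≤ η) ∧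
      ∀ t, t0 ≤ t → ∀ q : Finset (HeightOneSpectrum (𝓞 F)),
        ∑ v ∈ q, 1 / ((Ideal.absNorm v.asIdeal : ℕ) : ℝ) ≤ N * η →
        ∃ 𝒟 : Finset F, (∀ D ∈ 𝒟, G D ∧ ((oddNorm D : ℕ) : ℝ) ≤ t ∧ Disjoint (supp D) q) ∧
          c0 * t ≤ 𝒟.card := by
  obtain ⟨c, P0, hc, hlow⟩ := lowa F
  obtain ⟨C1, hC1, hcnt⟩ := count_le F cls
  have hN0 : (0 : ℝ) < N := by exact_mod_cast hN
  obtain ⟨P, hP0, hP⟩ := small_primes (16 * C1 ^ 2 * N / c ^ 2) (by positivity) P0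
  obtain ⟨t0, ht0, hlow⟩ := hlow P hP0
  set p : ℝ := ∏ v ∈ P, (1 - 1 / ((Ideal.absNorm v.asIdeal : ℕ) : ℝ)) with hp
  have hp0 : 0 < p := prod_pos fun v _ => by
    have := inv_N_le v
    linarith
  set η : ℝ := c * p / (4 * C1 * N) with hη
  have hη0 : 0 < η := by positivity
  refine ⟨fun D => (D ≠ 0 ∧ rep D = D) ∧ ∑ v ∈ supp D, 1 / ((Ideal.absNorm v.asIdeal : ℕ) : ℝ) ≤ η,
    η, c * p / 2, t0, by positivity, ht0, hη0.le, fun D h => h.1, fun D h => h.2, ?_⟩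
  intro t ht q hq
  have htpos : 0 < t := by linarith
  obtain ⟨𝒟0, hT, hPD, hcard⟩ := hlow t ht
  set g1 : Finset F := 𝒟0.filter fun D => ¬ Disjoint (supp D) q with hg1
  set g2 : Finset F := 𝒟0.filter fun D =>
    η < ∑ v ∈ supp D, 1 / ((Ideal.absNorm v.asIdeal : ℕ) : ℝ) with hg2
  set g3 : Finset F := 𝒟0.filter fun D => Disjoint (supp D) q ∧
    ∑ v ∈ supp D, 1 / ((Ideal.absNorm v.asIdeal : ℕ) : ℝ) ≤ η with hg3
  have hv : ∀ v : HeightOneSpectrum (𝓞 F), ((𝒟0.filter fun D => v ∈ supp D).card : ℝ) ≤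
      C1 * t * (1 / ((Ideal.absNorm v.asIdeal : ℕ) : ℝ)) := fun v =>
    hcnt t v _ htpos.le (hT.subset (filter_subset _ _)) fun D hD => (mem_filter.1 hD).2
  have h1 : (g1.card : ℝ) ≤ c * p / 4 * t := by
    have h2 : g1 ⊆ q.biUnion fun v => 𝒟0.filter fun D => v ∈ supp D := by
      intro D hD
      obtain ⟨hD, hd⟩ := mem_filter.1 hD
      rw [not_disjoint_iff] at hd
      obtain ⟨v, hv1, hv2⟩ := hd
      rw [mem_biUnion]
      exact ⟨v, hv2, mem_filter.2 ⟨hD, hv1⟩⟩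
    have h3 : (g1.card : ℝ) ≤ ∑ v ∈ q, ((𝒟0.filter fun D => v ∈ supp D).card : ℝ) := by
      exact_mod_cast (card_le_card h2).trans card_biUnion_le
    refine h3.trans ((sum_le_sum fun v _ => hv v).trans ?_)
    rw [← mul_sum]
    calc C1 * t * ∑ v ∈ q, 1 / ((Ideal.absNorm v.asIdeal : ℕ) : ℝ) ≤ C1 * t * (N * η) :=
          mul_le_mul_of_nonneg_left hq (by positivity)
      _ = c * p / 4 * t := by
        rw [hη]
        field_simp
  have h2 : (g2.card : ℝ) ≤ c * p / 4 * t := by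
    set A : Finset (HeightOneSpectrum (𝓞 F)) := 𝒟0.biUnion supp with hA
    have hAP : Disjoint A P := by
      rw [disjoint_left]
      intro v hvA hvP
      rw [hA, mem_biUnion] at hvA
      obtain ⟨D, hD, hvD⟩ := hvA
      exact hPD D hD v hvP ((mem_supp (hT.ne D hD) v).1 hvD)
    have h3 := hP A hAP
    have h4 : η * g2.card ≤ ∑ D ∈ 𝒟0, ∑ v ∈ supp D, 1 / ((Ideal.absNorm v.asIdeal : ℕ) : ℝ) := by
      have h5 : η * g2.card ≤ ∑ D ∈ g2, ∑ v ∈ supp D, 1 / ((Ideal.absNorm v.asIdeal : ℕ) : ℝ) := by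
        rw [mul_comm, ← nsmul_eq_mul]
        exact card_nsmul_le_sum _ _ _ fun D hD => (mem_filter.1 hD).2.le
      exact h5.trans (sum_le_sum_of_subset_of_nonneg (filter_subset _ _)
        fun D _ _ => sum_nonneg fun v _ => by positivity)
    have h5 : ∑ D ∈ 𝒟0, ∑ v ∈ supp D, 1 / ((Ideal.absNorm v.asIdeal : ℕ) : ℝ) =
        ∑ v ∈ A, ((𝒟0.filter fun D => v ∈ supp D).card : ℝ) *
          (1 / ((Ideal.absNorm v.asIdeal : ℕ) : ℝ)) := by
      have h6 : ∀ D ∈ 𝒟0, ∑ v ∈ supp D, 1 / ((Ideal.absNorm v.asIdeal : ℕ) : ℝ) =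
          ∑ v ∈ A, if v ∈ supp D then 1 / ((Ideal.absNorm v.asIdeal : ℕ) : ℝ) else 0 := by
        intro D hD
        rw [← sum_filter]
        congr 1
        ext v
        rw [mem_filter]
        exact ⟨fun h => ⟨mem_biUnion.2 ⟨D, hD, h⟩, h⟩, fun h => h.2⟩
      rw [sum_congr rfl h6, sum_comm]
      refine sum_congr rfl fun v _ => ?_
      rw [← sum_filter, sum_const, nsmul_eq_mul]
    have h6 : ∑ v ∈ A, ((𝒟0.filter fun D => v ∈ supp D).card : ℝ) *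
          (1 / ((Ideal.absNorm v.asIdeal : ℕ) : ℝ)) ≤
        C1 * t * ∑ v ∈ A, 1 / (((Ideal.absNorm v.asIdeal : ℕ) : ℝ)) ^ 2 := by
      rw [mul_sum]
      refine sum_le_sum fun v _ => ?_
      refine (mul_le_mul_of_nonneg_right (hv v) (by positivity)).trans (le_of_eq ?_)
      rw [mul_assoc, one_div_mul_one_div, ← sq]
    have h7 : η * g2.card ≤ C1 * t * ∑ v ∈ A, 1 / (((Ideal.absNorm v.asIdeal : ℕ) : ℝ)) ^ 2 := by
      rw [h5] at h4
      exact h4.trans h6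
    have h8 : ∑ v ∈ A, 1 / (((Ideal.absNorm v.asIdeal : ℕ) : ℝ)) ^ 2 ≤
        p ^ 2 / (16 * C1 ^ 2 * N / c ^ 2) := by
      rw [le_div_iff₀ (by positivity), mul_comm]
      exact h3
    have h9 : η * g2.card ≤ η * (c * p / 4 * t) := by
      refine h7.trans ((mul_le_mul_of_nonneg_left h8 (by positivity)).trans (le_of_eq ?_))
      rw [hη]
      field_simp
      ring
    exact le_of_mul_le_mul_left h9 hη0
  have h3 : c * p / 2 * t ≤ g3.card := by
    have h4 : 𝒟0 ⊆ (g1 ∪ g2) ∪ g3 := by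
      intro D hD
      rw [mem_union, mem_union]
      by_cases hd : Disjoint (supp D) q
      · rcases le_or_gt (∑ v ∈ supp D, 1 / ((Ideal.absNorm v.asIdeal : ℕ) : ℝ)) η with h | h
        · exact Or.inr (mem_filter.2 ⟨hD, hd, h⟩)
        · exact Or.inl (Or.inr (mem_filter.2 ⟨hD, h⟩))
      · exact Or.inl (Or.inl (mem_filter.2 ⟨hD, hd⟩))
    have h5 : 𝒟0.card ≤ g1.card + g2.card + g3.card :=
      (card_le_card h4).trans ((card_union_le _ _).trans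
        (Nat.add_le_add_right (card_union_le _ _) _))
    have h6 : (𝒟0.card : ℝ) ≤ g1.card + g2.card + g3.card := by exact_mod_cast h5
    linarith
  refine ⟨g3.image rep, ?_, ?_⟩
  · intro D' hD'
    obtain ⟨D, hD, rfl⟩ := mem_image.1 hD'
    obtain ⟨hD, hd, hs⟩ := mem_filter.1 hD
    have hne := hT.ne D hD
    refine ⟨⟨⟨rep_ne hne, rep_rep D⟩, ?_⟩, ?_, ?_⟩
    · rw [supp_rep]; exact hs
    · rw [oddNorm_rep hne]; exact hT.norm D hD
    · rw [supp_rep]; exact hd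
  · rw [card_image_of_injOn]
    · exact h3
    · intro D hD D' hD' h
      by_contra hne
      exact hT.dist D (mem_filter.1 hD).1 D' (mem_filter.1 hD').1 hne (square_of_rep h)

/-- the lower bound for the number of the tuples -/
theorem tup (lowa : S_LOWA) (cls : S_CLS) (N : ℕ) (hN : 1 ≤ N) : Tup F N := by
  obtain ⟨G, η, c0, t0, hc0, ht0, hη, hG, hGs, H⟩ := classes F lowa cls N hN
  obtain ⟨c, X0, hc, hX0, h⟩ := tuples_count (n := fun D : F => ((oddNorm D : ℕ) : ℝ)) hN hc0 ht0 hη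
    (fun v : HeightOneSpectrum (𝓞 F) => (by positivity :
      (0 : ℝ) ≤ 1 / ((Ideal.absNorm v.asIdeal : ℕ) : ℝ)))
    (fun D hD => one_le_oddNorm (hG D hD).1) hGs H
  refine ⟨c, X0, hc, hX0, fun X hX => ?_⟩
  obtain ⟨𝒯, h1, h2⟩ := h X hX
  refine ⟨𝒯, fun τ hτ i => (hG _ ((h1 τ hτ).1.good i)).1, ?_, fun τ hτ => (h1 τ hτ).2, ?_, h2⟩
  · intro τ hτ v i j hi hj
    by_contra hij
    have h0 := fun i => (hG _ ((h1 τ hτ).1.good i)).1
    exact (disjoint_left.1 ((h1 τ hτ).1.disj i j hij) ((mem_supp (h0 i) v).2 hi))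
      ((mem_supp (h0 j) v).2 hj)
  · intro τ hτ τ' hτ' hs
    funext i
    have h3 := hG _ ((h1 τ hτ).1.good i)
    have h4 := hG _ ((h1 τ' hτ').1.good i)
    have h5 := rep_square h3.1 h4.1 (hs i)
    rwa [h3.2, h4.2] at h5

/-- LOWW. -/
theorem loww : S_LOWA → S_CLS → (∀ (F : Type) [Field F] [NumberField F] (N : ℕ), 1 ≤ N →
    ∃ c X0 : ℝ, 0 < c ∧ 1 ≤ X0 ∧ ∀ X : ℝ, X0 ≤ X → ∃ 𝒟 : Finset F, Twists X 𝒟 ∧
      c * X * (1 + Real.log X) ^ (N - 1) ≤ ∑ D ∈ 𝒟, (N : ℝ) ^ wt D) := by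
  intro lowa cls F _ _ N hN
  exact loww_of_tup cls hN (tup lowa cls N hN)

end

end Pool.Agent.Q299.ESB.Loww
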