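import Pool.Agent.Q161.ESB.Stm2
import Pool.Agent.Q299.ESM.Cnt

set_option autoImplicit false

/-!
# Project ESB, job LCTB: the functions with one zero and given characters, `M` blocks
-/

namespace Pool.Agent.Q299.ESB

open Finset
open Pool.Agent.Q161.ESB
open Pool.Agent.Q299.ESM (Eq0 cnt)

open Classical in
theorem lctb : S_LCT → S_LCTB := by
  intro hlct M k V _ _ _ _ _ l f hl hl2 hcard htwo F hF hFf S hS z t m0 htS hFt ξ
  classical
  -- the chosen blocks
  set J : Set (Fin M) → Fin M := fun A => if h : A.Nonempty then h.some else m0 with hJ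
  set j : V → Fin M := fun s => if s = t then m0 else J {m | (s, m) ∈ S} with hj
  have hjt : j t = m0 := by simp [hj]
  have hjS : ∀ s m, (s, m) ∈ S → (s, j s) ∈ S := by
    intro s m hs
    by_cases h : s = t
    · subst h; rw [hjt]; exact htS
    · have h1 : {m | (s, m) ∈ S}.Nonempty := ⟨m, hs⟩
      have h2 : j s = h1.some := by
        simp only [hj, hJ, if_neg h, dif_pos h1]
      rw [h2]
      exact h1.some_mem
  have hjF : ∀ s, j (F s) = j s := by
    intro s
    by_cases h : s = t
    · subst h; rw [hFt]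
    · have h1 : F s ≠ t := fun h2 => h (hF.1 (h2.trans hFt.symm))
      have h2 : {m | (F s, m) ∈ S} = {m | (s, m) ∈ S} := by
        ext m
        exact (hS s m).symm
      simp only [hj, if_neg h, if_neg h1, h2]
  set VS : Finset V := S.image Prod.fst with hVS
  have hVSmem : ∀ s, s ∈ VS ↔ ∃ m, (s, m) ∈ S := by
    intro s
    rw [hVS, mem_image]
    constructor
    · rintro ⟨⟨a, b⟩, h1, rfl⟩
      exact ⟨b, h1⟩
    · rintro ⟨m, h⟩
      exact ⟨(s, m), h, rfl⟩
  set S1 : Finset (V × Fin M) := S.filter (fun x => x.2 = j x.1) with hS1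
  set S0 : Finset (V × Fin M) := S.filter (fun x => ¬ x.2 = j x.1) with hS0
  have hcS1 : S1.card = VS.card := by
    have h1 : S1.image Prod.fst = VS := by
      ext s
      rw [hVSmem, mem_image]
      constructor
      · rintro ⟨⟨a, b⟩, h1, rfl⟩
        exact ⟨b, (mem_filter.1 h1).1⟩
      · rintro ⟨m, h⟩
        exact ⟨(s, j s), mem_filter.2 ⟨hjS s m h, rfl⟩, rfl⟩
    rw [← h1, card_image_of_injOn]
    rintro ⟨a, b⟩ h1 ⟨a', b'⟩ h2 h3
    have e1 := (mem_filter.1 (mem_coe.1 h1)).2
    have e2 := (mem_filter.1 (mem_coe.1 h2)).2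
    simp only at h3 e1 e2
    subst h3
    rw [e1, e2]
  have hcS : S.card = S1.card + S0.card := (card_filter_add_card_filter_not _).symm
  have htVS : t ∈ VS := (hVSmem t).2 ⟨m0, htS⟩
  have hVSpos : 0 < VS.card := card_pos.2 ⟨t, htVS⟩
  have hVSF : ∀ s, s ∈ VS ↔ F s ∈ VS := by
    intro s
    rw [hVSmem, hVSmem]
    exact exists_congr fun m => hS s m
  have hl1 : 2 ≤ l := hl.two_le
  have hl0 : 0 < l := hl.pos
  set A : Set (V × Fin M → k) := {c : V × Fin M → k | EqB l F c ∧ (∀ x, x ∉ S → c x = z x) ∧ c (t, m0) = 0 ∧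
      (∀ x, x ≠ (t, m0) → c x ≠ 0) ∧
      ∀ φ : V →+ ZMod 2, (∀ s, φ (F s) = φ s) →
        (∏ s ∈ univ.filter (fun s => φ (s - t) ≠ 0), ∏ m, c (s, m)) ^ ((l - 1) / 2) =
          ξ φ} with hA
  set nS := NS F {s : V | ∃ m, (s, m) ∈ S} t with hnS
  -- the projection
  set z' : V × Fin M → k := fun x => if x ∈ S then 1 else z x with hz'
  set π : (V × Fin M → k) → (V × Fin M → k) := fun c x => if x ∈ S0 then c x else z' x with hπ
  have hπmem : ∀ c ∈ A, π c ∈ Eq0 l (fun x : V × Fin M => (F x.1, x.2)) S0 z' := by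
    intro c hc
    refine ⟨?_, fun x hx => ?_⟩
    · rintro ⟨s, m⟩
      have h0 : (F s, m) ∈ S0 ↔ (s, m) ∈ S0 := by
        rw [hS0, mem_filter, mem_filter, ← hS]
        simp only [hjF]
      have h1 : (F s, m) ∈ S ↔ (s, m) ∈ S := (hS s m).symm
      simp only [hπ, hz']
      by_cases h2 : (s, m) ∈ S0
      · rw [if_pos (h0.2 h2), if_pos h2]
        exact hc.1 s m
      · rw [if_neg (fun h => h2 (h0.1 h)), if_neg h2]
        by_cases h3 : (s, m) ∈ S
        · rw [if_pos (h1.2 h3), if_pos h3, one_pow]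
        · rw [if_neg (fun h => h3 (h1.1 h)), if_neg h3, ← hc.2.1 _ h3,
            ← hc.2.1 _ (fun h => h3 (h1.1 h))]
          exact hc.1 s m
    · simp only [hπ, if_neg hx]
  -- the fibres
  have hfib : ∀ d : V × Fin M → k, ({c | c ∈ A ∧ π c = d}.ncard) * nS ≤ l ^ (VS.card - 1) := by
    intro d
    by_cases hne : ({c | c ∈ A ∧ π c = d}).Nonempty
    swap
    · rw [Set.not_nonempty_iff_eq_empty.1 hne, Set.ncard_empty, zero_mul]
      exact Nat.zero_le _
    obtain ⟨c0, hc0, hc0d⟩ := hne
    -- values at the other elements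
    set Dd : V × Fin M → k := fun x => if x ∈ S0 then d x else z x with hDd
    set Rst : V → k := fun s => if s ∈ VS then ∏ m ∈ univ.erase (j s), Dd (s, m) else ∏ m, Dd (s, m) with hRst
    set c1 : (V × Fin M → k) → (V → k) := fun c s => if s ∈ VS then c (s, j s) else 1 with hc1
    have hval : ∀ c, c ∈ A → π c = d → ∀ x, ¬ (x ∈ S1) → c x = Dd x := by
      intro c hc hcd x hx
      simp only [hDd]
      by_cases h : x ∈ S0
      · rw [if_pos h, ← hcd]
        simp only [hπ, if_pos h]
      · rw [if_neg h]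
        apply hc.2.1
        intro hxS
        by_cases h2 : x.2 = j x.1
        · exact hx (mem_filter.2 ⟨hxS, h2⟩)
        · exact h (mem_filter.2 ⟨hxS, h2⟩)
    have hprod : ∀ c, c ∈ A → π c = d → ∀ s, ∏ m, c (s, m) = c1 c s * Rst s := by
      intro c hc hcd s
      simp only [hc1, hRst]
      by_cases h : s ∈ VS
      · rw [if_pos h, if_pos h, ← Finset.mul_prod_erase univ (fun m => c (s, m)) (mem_univ (j s))]
        congr 1
        refine prod_congr rfl fun m hm => hval c hc hcd _ fun h2 => ?_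
        exact (mem_erase.1 hm).1 (mem_filter.1 h2).2
      · rw [if_neg h, if_neg h, one_mul]
        refine prod_congr rfl fun m _ => hval c hc hcd _ fun h2 => ?_
        exact h ((hVSmem s).2 ⟨m, (mem_filter.1 h2).1⟩)
    have hRne : ∀ s, Rst s ≠ 0 := by
      intro s
      simp only [hRst]
      by_cases h : s ∈ VS
      · rw [if_pos h]
        refine prod_ne_zero_iff.2 fun m hm => ?_
        have hm' := (mem_erase.1 hm).1
        rw [← hval c0 hc0 hc0d (s, m) (fun h2 => hm' (mem_filter.1 h2).2)]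
        apply hc0.2.2.2.1
        intro h3
        rw [Prod.mk.injEq] at h3
        obtain ⟨rfl, rfl⟩ := h3
        exact hm' hjt.symm
      · rw [if_neg h]
        refine prod_ne_zero_iff.2 fun m _ => ?_
        rw [← hval c0 hc0 hc0d (s, m) (fun h2 => h ((hVSmem s).2 ⟨m, (mem_filter.1 h2).1⟩))]
        apply hc0.2.2.2.1
        intro h3
        rw [Prod.mk.injEq] at h3
        exact h (h3.1 ▸ htVS)
    set ξ' : (V →+ ZMod 2) → k := fun φ =>
      ξ φ / (∏ s ∈ univ.filter (fun s => φ (s - t) ≠ 0), Rst s) ^ ((l - 1) / 2) with hξ'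
    have h := hlct k V l f hl hl2 hcard htwo F hF hFf VS hVSF (fun _ => 1) t htVS hFt ξ'
    have hNS : NS F (VS : Set V) t = nS := by
      rw [hnS]
      congr 1
      ext s
      exact hVSmem s
    rw [hNS] at h
    set B : Set (V → k) := {c : V → k | EqF l F c ∧ (∀ s, s ∉ VS → c s = 1) ∧ c t = 0 ∧ (∀ s, s ≠ t → c s ≠ 0) ∧
      ∀ φ : V →+ ZMod 2, (∀ s, φ (F s) = φ s) →
        (∏ s ∈ univ.filter (fun s => φ (s - t) ≠ 0), c s) ^ ((l - 1) / 2) = ξ' φ} with hB
    have hle : ({c | c ∈ A ∧ π c = d}).ncard ≤ B.ncard := by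
      refine Set.ncard_le_ncard_of_injOn c1 ?_ ?_ (Set.toFinite _)
      · rintro c ⟨hc, hcd⟩
        refine ⟨fun s => ?_, fun s hs => ?_, ?_, fun s hs => ?_, fun φ hφ => ?_⟩
        · simp only [hc1]
          by_cases h2 : s ∈ VS
          · rw [if_pos h2, if_pos ((hVSF s).1 h2), hjF]
            exact hc.1 s (j s)
          · rw [if_neg h2, if_neg (fun h3 => h2 ((hVSF s).2 h3)), one_pow]
        · simp only [hc1, if_neg hs]
        · simp only [hc1, if_pos htVS, hjt]
          exact hc.2.2.1
        · simp only [hc1]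
          by_cases h2 : s ∈ VS
          · rw [if_pos h2]
            apply hc.2.2.2.1
            intro h3
            rw [Prod.mk.injEq] at h3
            exact hs h3.1
          · rw [if_neg h2]
            exact one_ne_zero
        · have h2 := hc.2.2.2.2 φ hφ
          rw [prod_congr rfl (fun s _ => hprod c hc hcd s), prod_mul_distrib, mul_pow] at h2
          simp only [hξ']
          rw [← h2, mul_div_cancel_right₀]
          exact pow_ne_zero _ (prod_ne_zero_iff.2 fun s _ => hRne s)
      · rintro c ⟨hc, hcd⟩ c' ⟨hc', hcd'⟩ heq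
        funext x
        by_cases h2 : x ∈ S1
        · have h3 := mem_filter.1 h2
          have h4 : x.1 ∈ VS := (hVSmem _).2 ⟨x.2, h3.1⟩
          have h5 := congrFun heq x.1
          simp only [hc1, if_pos h4, ← h3.2] at h5
          exact h5
        · rw [hval c hc hcd x h2, hval c' hc' hcd' x h2]
    have h3 : B.ncard * nS ≤ l ^ (VS.card - 1) := by exact_mod_cast h
    exact (Nat.mul_le_mul_right _ hle).trans h3
  -- the count
  have hE := cnt (k := k) l (F := fun x : V × Fin M => (F x.1, x.2)) (fun x y hxy => by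
    rw [Prod.mk.injEq] at hxy
    exact Prod.ext (hF.1 hxy.1) hxy.2) hl1 S0.card S0 rfl (fun x => by
      rw [hS0, mem_filter, mem_filter]
      simp only [hjF]
      rw [← hS x.1 x.2]) z'
  have hfinal : A.ncard * nS ≤ l ^ (S.card - 1) := by
    rcases Nat.eq_zero_or_pos nS with h0 | h0
    · rw [h0, mul_zero]; exact Nat.zero_le _
    have hAf : A.Finite := Set.toFinite _
    have hEf : (Eq0 l (fun x : V × Fin M => (F x.1, x.2)) S0 z').Finite := Set.toFinite _
    have h1 : hAf.toFinset.card ≤ (l ^ (VS.card - 1) / nS) * hEf.toFinset.card := by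
      refine card_le_mul_card_image_of_maps_to (f := π) (fun c hc => ?_) _ fun d _ => ?_
      · rw [Set.Finite.mem_toFinset] at hc ⊢
        exact hπmem c hc
      · rw [Nat.le_div_iff_mul_le h0]
        have h2 := hfib d
        have h3 : (hAf.toFinset.filter (fun c => π c = d)).card = {c | c ∈ A ∧ π c = d}.ncard := by
          rw [← Set.ncard_coe_finset]
          congr 1
          ext c
          rw [mem_coe, mem_filter, Set.Finite.mem_toFinset]
          rfl
        rw [h3]
        exact h2
    rw [← Set.ncard_eq_toFinset_card _ hAf, ← Set.ncard_eq_toFinset_card _ hEf] at h1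
    calc A.ncard * nS ≤ (l ^ (VS.card - 1) / nS) * (Eq0 l (fun x : V × Fin M => (F x.1, x.2)) S0 z').ncard * nS :=
          Nat.mul_le_mul_right _ h1
      _ = (l ^ (VS.card - 1) / nS) * nS * (Eq0 l (fun x : V × Fin M => (F x.1, x.2)) S0 z').ncard := by ring
      _ ≤ l ^ (VS.card - 1) * l ^ S0.card := Nat.mul_le_mul (Nat.div_mul_le_self _ _) hE
      _ = l ^ (S.card - 1) := by
        rw [← pow_add]
        congr 1
        omega
  exact_mod_cast hfinal

end Pool.Agent.Q299.ESB
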