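import Pool.Agent.Q208.ESN.Loc2
import Pool.Agent.Q161.ESB.Stm2

/-!
# Project ESB, job SYS, part 1: the local data and densities for `M` blocks
-/

set_option autoImplicit false
set_option linter.unusedSectionVars false
set_option linter.unusedVariables false
set_option linter.style.haveILetI false

namespace Pool.Agent.Q299.ESB

open NumberField IsDedekindDomain Finset
open Pool.Agent.Q161.ESB
open Pool.Agent.Q208.ESN
open Pool.Agent.Q51.EL (pr Abv N1)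
open Pool.Agent.Q161.EA (Un)

section K

variable {F K : Type} [Field F] [NumberField F] [Field K] [NumberField K] [Algebra F K]
  {V : Type} [AddCommGroup V]
  [DistribMulAction (K ≃ₐ[F] K) V] {ι : Type} {Lf : ι → Type} [∀ i, Field (Lf i)]
  {em : (i : ι) → Lf i →+* K} {rp : ι → V} [∀ i, NumberField (Lf i)] {P : Type} [Fintype P]
  {n : ι → ℕ} {bs : (i : ι) → Module.Basis (Fin (n i)) ℤ (𝓞 (Lf i))}
    {ev : ((i : ι) → 𝓞 (Lf i)) →+* (V → 𝓞 K)} {l : ℕ} {v : P → HeightOneSpectrum (𝓞 F)}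
    {w : P → HeightOneSpectrum (𝓞 K)} {q : P → ℕ} {φ : P → (K ≃ₐ[F] K)}
    {R : Vm n l → (p : P) → V → 𝓞 K ⧸ (w p).asIdeal} {M : ℕ}

/-- the allowed classes -/
def OmRB [Fintype V] {n : ι → ℕ} (T : Set (Fin M → V → 𝓞 K)) {w : P → HeightOneSpectrum (𝓞 K)} {l : ℕ}
    (q : P → ℕ) (φ : P → (K ≃ₐ[F] K)) (R : Vm n l → (p : P) → V → 𝓞 K ⧸ (w p).asIdeal) :
    Set (Fin M → Vm n l) :=
  {y | ∀ p, q p = l → (∀ m s, R (y m) p s ≠ 0) ∨ ∃ t m, R (y m) p t = 0 ∧ φ p • t = t ∧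
    (∀ s m', (s, m') ≠ (t, m) → R (y m') p s ≠ 0) ∧
    ∃ z' ∈ T, ∃ m'', z' m'' t ∈ (w p).asIdeal ∧ ∀ χ : V →+ ZMod 2, (∀ s, χ (φ p • s) = χ s) →
      (∏ s ∈ univ.filter (fun s => χ (s - t) ≠ 0),
        ∏ j, R (y j) p s * Ideal.Quotient.mk (w p).asIdeal (z' j s)) ^ ((l - 1) / 2) = 1}

/-- the blocks of a vector modulo `l` -/
def blk {n : ι → ℕ} {l : ℕ} (y : Vm (fun x : ι × Fin M => n x.1) l) : Fin M → Vm n l :=
  fun m i => y (i, m)

/-- the blocks of a vector -/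
def blkc {n : ι → ℕ} (x : Vc (fun x : ι × Fin M => n x.1)) : Fin M → Vc n :=
  fun m i => x (i, m)

theorem blk_rd {n : ι → ℕ} {l : ℕ} (x : Vc (fun x : ι × Fin M => n x.1)) :
    blk (rd (fun x : ι × Fin M => n x.1) l x) = fun m => rd n l (blkc x m) := rfl

theorem LD_unitB [Fintype V] (h : LD bs rp ev l v w q φ R) (hR : Rp F Lf em rp)
    (T : Set (Fin M → V → 𝓞 K)) (y : Fin M → Vm n l) (hy : ∀ i m, y m i ∈ UR (F := F) rp R i) :
    y ∈ OmRB T q φ R := by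
  intro p _
  left
  intro m s
  exact h.U_ne' hR (hy _ m) p

theorem LD_memTB [Fintype V] (h : LD bs rp ev l v w q φ R) {T : Set (Fin M → V → 𝓞 K)}
    (hloc : ∀ p, q p = l → LocB (w p) l (φ p) T) (x : Fin M → Vc n)
    (hx : (fun m => ev (fun i => ∑ j, x m i j • bs i j)) ∈ T) :
    (fun m => rd n l (x m)) ∈ OmRB T q φ R := by
  intro p hp
  by_cases h0 : ∀ m s, R (rd n l (x m)) p s ≠ 0
  · left
    exact h0
  · right
    push Not at h0
    obtain ⟨m, t, ht⟩ := h0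
    have ht' := (h.mem_iff (x m) p t).1 ht
    obtain ⟨h1, h2⟩ := (hloc p hp).one _ hx m t ht'
    refine ⟨t, m, ht, h1, fun s m' hs hcon => h2 m' s ?_ ((h.mem_iff (x m') p s).1 hcon), _, hx, m, ht', ?_⟩
    · intro h3
      apply hs
      rw [Prod.mk.injEq] at h3 ⊢
      exact ⟨h3.2, h3.1⟩
    · intro χ hχ
      have h3 := (hloc p hp).two _ hx _ hx t m m ht' ht' χ hχ
      have h4 := Ideal.Quotient.eq_zero_iff_mem.2 h3
      rw [map_sub, map_one, map_pow, map_prod, sub_eq_zero] at h4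
      rw [← h4]
      congr 1
      refine Finset.prod_congr rfl fun s _ => ?_
      rw [map_prod]
      refine Finset.prod_congr rfl fun j _ => ?_
      rw [map_mul, h.red]

theorem LD_xiB [Fintype V] (h : LD bs rp ev l v w q φ R) {T : Set (Fin M → V → 𝓞 K)}
    (hloc : ∀ p, q p = l → LocB (w p) l (φ p) T) (p : P) (hp : q p = l) (t : V) :
    ∃ ξ : (V →+ ZMod 2) → 𝓞 K ⧸ (w p).asIdeal, ∀ y ∈ OmRB T q φ R, ∀ m, R (y m) p t = 0 →
      ∀ χ : V →+ ZMod 2, (∀ s, χ (φ p • s) = χ s) →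
        (∏ s ∈ univ.filter (fun s => χ (s - t) ≠ 0), ∏ j, R (y j) p s) ^ ((l-1)/2) = ξ χ := by
  letI := fld (w p)
  by_cases hz : ∃ z0 ∈ T, ∃ m0, z0 m0 t ∈ (w p).asIdeal
  · obtain ⟨z0, hz0, m0, hz1⟩ := hz
    refine ⟨fun χ => (∏ s ∈ univ.filter (fun s => χ (s - t) ≠ 0),
      ∏ j, Ideal.Quotient.mk (w p).asIdeal (z0 j s)) ^ ((l-1)/2), ?_⟩
    intro y hy m hyt χ hχ
    rcases hy p hp with hy | ⟨t', m1, ht0, ht1, ht2, z', hz', m2, hz2, hz3⟩
    · exact absurd hyt (hy m t)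
    · have htt : t = t' := by
        by_contra hne
        exact ht2 t m (fun h => hne (Prod.mk.injEq _ _ _ _ ▸ h).1) hyt
      subst htt
      have e1 := hz3 χ hχ
      have e2 := (hloc p hp).two z0 hz0 z' hz' t m0 m2 hz1 hz2 χ hχ
      have e3 := Ideal.Quotient.eq_zero_iff_mem.2 e2
      rw [map_sub, map_one, map_pow, map_prod, sub_eq_zero] at e3
      simp only [map_mul, map_prod, Finset.prod_mul_distrib] at e3
      simp only [Finset.prod_mul_distrib] at e1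
      rw [mul_pow] at e1 e3
      have e4 : (∏ s ∈ univ.filter (fun s => χ (s - t) ≠ 0),
        ∏ j, Ideal.Quotient.mk (w p).asIdeal (z' j s)) ^ ((l-1)/2) ≠ 0 := by
        intro hcon
        rw [hcon, mul_zero] at e1
        exact nzq _ e1.symm
      exact mul_right_cancel₀ e4 (e1.trans e3.symm)
  · refine ⟨fun _ => 0, ?_⟩
    intro y hy m hyt χ hχ
    exfalso
    rcases hy p hp with hy | ⟨t', m1, ht0, ht1, ht2, z', hz', m2, hz2, hz3⟩
    · exact absurd hyt (hy m t)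
    · have htt : t = t' := by
        by_contra hne
        exact ht2 t m (fun h => hne (Prod.mk.injEq _ _ _ _ ▸ h).1) hyt
      subst htt
      exact hz ⟨z', hz', m2, hz2⟩

theorem LD_toAbB [Fintype V] (h : LD bs rp ev l v w q φ R)
    (hR : Rp F Lf em rp) {T : Set (Fin M → V → 𝓞 K)}
    (hloc : ∀ p, q p = l → LocB (w p) l (φ p) T)
    (hn : ∀ i, n i = Module.finrank ℚ F * {t : V | ∃ g : K ≃ₐ[F] K, g • rp i = t}.ncard) :
    @AbB M P _ (fun p => 𝓞 K ⧸ (w p).asIdeal) (fun p => fld (w p)) V (K ≃ₐ[F] K) ι _ _ _ _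
      n l (Module.finrank ℚ F) q φ (orbOf hR) R (OmRB T q φ R) := by
  letI : ∀ p, Field (𝓞 K ⧸ (w p).asIdeal) := fun p => fld (w p)
  exact
  { lp := h.lp
    l2 := h.l2
    d0 := Module.finrank_pos
    inj := h.inj
    eqf := fun y p s => ((h.img (R y)).1 ⟨y, rfl⟩ p s)
    cmp := by
      intro y y' s hy p
      obtain ⟨g, hg⟩ := orbOf_spec hR s
      have := (h.cmp y y' _).1 hy p g
      rwa [hg] at this
    nn := by
      classical
      intro i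
      rw [hn i, ← Set.ncard_coe_finset]
      congr 2
      ext s
      simp [orbOf_iff hR]
    sur := fun i => ⟨rp i, orbOf_rp hR i⟩
    orbG := orbOf_orb hR
    prod := h.frm.prod
    dich := h.frm.dich
    fin := h.frm.ord
    om := by
      intro y hy p hp t m ht
      rcases hy p hp with hy | ⟨t', m1, ht0, ht1, ht2, z', hz', m2, hz2, hz3⟩
      · exact absurd ht (hy m t)
      · have htt : (t, m) = (t', m1) := by
          by_contra hne
          exact ht2 t m hne ht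
        rw [Prod.mk.injEq] at htt
        obtain ⟨rfl, rfl⟩ := htt
        exact ⟨ht1, ht2⟩
    xi := by
      intro p hp t
      obtain ⟨ξ, hξ⟩ := LD_xiB h hloc p hp t
      refine ⟨ξ, ?_⟩
      intro y hy m hyt χ hχ
      convert hξ y hy m hyt χ hχ }

open Classical in
/-- `N1` as a number of fixed points -/
theorem sumN1B [Fintype V] (hR : Rp F Lf em rp)
    (hn1 : ∀ i, N1 (Lf i) l = ∑ p ∈ univ.filter (fun p => q p = l),
      {s : V | (∃ g : K ≃ₐ[F] K, g • rp i = s) ∧ φ p • s = s}.ncard)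
    (hn0 : N1 F l = (univ.filter (fun p => q p = l)).card)
    (S : Finset (ι × Fin M)) :
    (∑ x ∈ S, (N1 (Lf x.1) l : ℝ)) - ((M * N1 F l : ℕ) : ℝ) =
      ∑ p ∈ univ.filter (fun p => q p = l),
        (((univ.filter (fun x : V × Fin M => (orbOf hR x.1, x.2) ∈ S ∧ φ p • x.1 = x.1)).card : ℝ) - M) := by
  have h1 : ∀ p : P, ((univ.filter (fun x : V × Fin M => (orbOf hR x.1, x.2) ∈ S ∧ φ p • x.1 = x.1)).card : ℝ) =
      ∑ x ∈ S, (({s : V | (∃ g : K ≃ₐ[F] K, g • rp x.1 = s) ∧ φ p • s = s}.ncard : ℕ) : ℝ) := by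
    intro p
    have h2 : (univ.filter (fun x : V × Fin M => (orbOf hR x.1, x.2) ∈ S ∧ φ p • x.1 = x.1)).card =
        ∑ x ∈ S, {s : V | (∃ g : K ≃ₐ[F] K, g • rp x.1 = s) ∧ φ p • s = s}.ncard := by
      rw [Finset.card_eq_sum_card_fiberwise (f := fun x : V × Fin M => (orbOf hR x.1, x.2)) (t := S) (by
        intro s hs
        simp only [coe_filter, mem_univ, true_and, Set.mem_ofPred_eq] at hs
        exact hs.1)]
      refine Finset.sum_congr rfl fun x hx => ?_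
      rw [← Set.ncard_coe_finset]
      have h3 : {s : V | (∃ g : K ≃ₐ[F] K, g • rp x.1 = s) ∧ φ p • s = s} =
          (fun s : V × Fin M => s.1) '' ((filter (fun a : V × Fin M => (orbOf hR a.1, a.2) = x)
            (univ.filter (fun x : V × Fin M => (orbOf hR x.1, x.2) ∈ S ∧ φ p • x.1 = x.1)) : Finset (V × Fin M)) :
              Set (V × Fin M)) := by
        ext s
        simp only [Set.mem_ofPred_eq, Set.mem_image, mem_coe, mem_filter, mem_univ, true_and]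
        rw [← orbOf_iff hR s x.1]
        constructor
        · rintro ⟨h2, h3⟩
          refine ⟨(s, x.2), ⟨⟨?_, h3⟩, ?_⟩, rfl⟩
          · rw [h2]; exact hx
          · rw [h2]
        · rintro ⟨⟨a, b⟩, ⟨⟨h2, h3⟩, h4⟩, rfl⟩
          exact ⟨congrArg Prod.fst h4, h3⟩
      rw [h3, Set.ncard_image_of_injOn]
      rintro ⟨a, b⟩ h4 ⟨a', b'⟩ h5 h6
      have e4 := (mem_filter.1 (mem_coe.1 h4)).2
      have e5 := (mem_filter.1 (mem_coe.1 h5)).2
      have e6 : b = b' := (congrArg Prod.snd e4).trans (congrArg Prod.snd e5).symm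
      simp only at h6
      rw [h6, e6]
    rw [h2]
    push_cast
    rfl
  rw [Finset.sum_sub_distrib, hn0, Finset.sum_const, nsmul_eq_mul]
  have h3 : ((M * (univ.filter (fun p => q p = l)).card : ℕ) : ℝ) =
      ((univ.filter (fun p => q p = l)).card : ℝ) * M := by
    push_cast
    ring
  rw [h3]
  congr 1
  simp_rw [h1]
  rw [Finset.sum_comm]
  refine Finset.sum_congr rfl fun x _ => ?_
  rw [hn1 x.1]
  push_cast
  rfl

/-- the constants -/
def CstB (M : ℕ) (V G : Type) [AddCommGroup V] [Fintype V] [Group G] [DistribMulAction G V] (d : ℕ)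
    (A κ : ℝ) : Prop := ∀ (P ι : Type) [Fintype P] [Fintype ι] (k : P → Type) [∀ p, Field (k p)]
    (n : ι → ℕ) (l : ℕ) (q : P → ℕ) (φ : P → G) (orb : V → ι) (R : Vm n l → (p : P) → V → k p)
    (Om : Set (Fin M → Vm n l)), AbB n l d q φ orb R Om →
  ∀ (S : Finset (ι × Fin M)) (z : Fin M → Vm n l), S.Nonempty →
    (∀ s m, (orb s, m) ∉ S → ∀ p, R (z m) p s ≠ 0) → ∀ X : ℝ,
    X = ∑ p ∈ univ.filter (fun p => q p = l),
        ((Nat.card {x : V × Fin M // (orb x.1, x.2) ∈ S ∧ φ p • x.1 = x.1} : ℝ) - M) →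
    ((({y | y ∈ Om ∧ ∀ i m, (i, m) ∉ S → y m i = z m i}.ncard : ℕ) : ℝ) / (l : ℝ) ^ (∑ x ∈ S, n x.1) ≤
      1 - X / l + A / (l : ℝ) ^ 2) ∧
    ((∀ p, q p = l ∧ φ p = 1) → ¬ BadB orb S →
      (({y | y ∈ Om ∧ ∀ i m, (i, m) ∉ S → y m i = z m i}.ncard : ℕ) : ℝ) / (l : ℝ) ^ (∑ x ∈ S, n x.1) ≤
      1 - (X + κ) / l + A / (l : ℝ) ^ 2) ∧
    ((∀ p, q p = l ∧ φ p = 1) → BadB orb S → ∀ p0 : P,
      (∀ y ∈ Om, (∀ i m, (i, m) ∉ S → y m i = z m i) → ∀ m, R (y m) p0 0 ≠ 0) →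
      (({y | y ∈ Om ∧ ∀ i m, (i, m) ∉ S → y m i = z m i}.ncard : ℕ) : ℝ) / (l : ℝ) ^ (∑ x ∈ S, n x.1) ≤
      1 - (X + κ) / l + A / (l : ℝ) ^ 2)

theorem exists_cstB (h : S_CNF) (M : ℕ) (V G : Type) [AddCommGroup V] [Fintype V] [Group G]
    [DistribMulAction G V] (hM : 1 ≤ M) (h2 : ∀ v : V, v + v = 0) (hs : Semi G V)
    (hi : ∀ v : V, (∀ g : G, g • v = v) → v = 0) (d : ℕ) : ∃ A κ : ℝ, 0 < κ ∧ CstB M V G d A κ := by
  classical
  obtain ⟨A, κ, hκ, hA⟩ := h M V G hM h2 hs hi d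
  refine ⟨A, κ, hκ, ?_⟩
  intro P ι _ _ k _ n l q φ orb R Om hAb S z hS hz X hX
  have := hA P ι k n l q φ orb R Om hAb S z hS hz
  have hX2 : X = ∑ p ∈ univ.filter (fun p => q p = l),
        (((univ.filter (fun x : V × Fin M => (orb x.1, x.2) ∈ S ∧ φ p • x.1 = x.1)).card : ℝ) - M) := by
    rw [hX]
    refine Finset.sum_congr rfl fun p _ => ?_
    rw [Nat.card_eq_fintype_card, Fintype.card_subtype]
  rw [hX2]
  convert this

theorem LD_densB [Fintype V] [Fintype ι] {A κ : ℝ}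
    (hC : CstB M V (K ≃ₐ[F] K) (Module.finrank ℚ F) A κ)
    (h : LD bs rp ev l v w q φ R) (hR : Rp F Lf em rp) {T : Set (Fin M → V → 𝓞 K)}
    (hloc : ∀ p, q p = l → LocB (w p) l (φ p) T)
    (hn : ∀ i, n i = Module.finrank ℚ F * {t : V | ∃ g : K ≃ₐ[F] K, g • rp i = t}.ncard)
    (hn1 : ∀ i, N1 (Lf i) l = ∑ p ∈ univ.filter (fun p => q p = l),
      {s : V | (∃ g : K ≃ₐ[F] K, g • rp i = s) ∧ φ p • s = s}.ncard)
    (S : Finset (ι × Fin M)) (hS : S.Nonempty) (z : Fin M → Vm n l)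
    (hz : ∀ i m, (i, m) ∉ S → z m i ∈ UR (F := F) rp R i) :
    (({y | y ∈ OmRB T q φ R ∧ ∀ i m, (i, m) ∉ S → y m i = z m i}.ncard : ℕ) : ℝ) /
        (l : ℝ) ^ (∑ x ∈ S, n x.1) ≤
      1 - ((∑ x ∈ S, (N1 (Lf x.1) l : ℝ)) - ((M * N1 F l : ℕ) : ℝ)) / l + A / (l : ℝ) ^ 2 ∧
    ((∀ p, q p = l ∧ φ p = 1) → ¬ BadB (orbOf hR) S →
      (({y | y ∈ OmRB T q φ R ∧ ∀ i m, (i, m) ∉ S → y m i = z m i}.ncard : ℕ) : ℝ) /
        (l : ℝ) ^ (∑ x ∈ S, n x.1) ≤
      1 - ((∑ x ∈ S, (N1 (Lf x.1) l : ℝ)) - ((M * N1 F l : ℕ) : ℝ) + κ) / l + A / (l : ℝ) ^ 2) ∧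
    ((∀ p, q p = l ∧ φ p = 1) → BadB (orbOf hR) S → ∀ p0 : P,
      (∀ y ∈ OmRB T q φ R, (∀ i m, (i, m) ∉ S → y m i = z m i) → ∀ m, R (y m) p0 0 ≠ 0) →
      (({y | y ∈ OmRB T q φ R ∧ ∀ i m, (i, m) ∉ S → y m i = z m i}.ncard : ℕ) : ℝ) /
        (l : ℝ) ^ (∑ x ∈ S, n x.1) ≤
      1 - ((∑ x ∈ S, (N1 (Lf x.1) l : ℝ)) - ((M * N1 F l : ℕ) : ℝ) + κ) / l + A / (l : ℝ) ^ 2) := by
  classical
  letI : ∀ p, Field (𝓞 K ⧸ (w p).asIdeal) := fun p => fld (w p)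
  have hAb := LD_toAbB h hR hloc hn
  have hz' : ∀ s m, (orbOf hR s, m) ∉ S → ∀ p, R (z m) p s ≠ 0 :=
    fun s m hs p => h.U_ne' hR (hz _ m hs) p
  refine hC P ι (fun p => 𝓞 K ⧸ (w p).asIdeal) n l q φ (orbOf hR) R (OmRB T q φ R) hAb S z hS hz' _ ?_
  rw [sumN1B hR hn1 h.frm.n1 S]
  refine Finset.sum_congr rfl fun p _ => ?_
  rw [Nat.card_eq_fintype_card, Fintype.card_subtype]

end K

end Pool.Agent.Q299.ESB
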