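import Pool.Agent.Q208.ESN.Loc3
import Pool.Agent.Q299.ESB.LocB2

/-!
# Project ESB, job SYS, part 2: the characters
-/

set_option autoImplicit false
set_option linter.unusedSectionVars false
set_option linter.unusedVariables false
set_option linter.style.haveILetI false

namespace Pool.Agent.Q299.ESB

open NumberField IsDedekindDomain Finset
open Pool.Agent.Q161.ESB
open Pool.Agent.Q208.ESN
open Pool.Agent.Q51.EL (pr Abv N1)
open Pool.Agent.Q161.EA (Un)

section K

variable {F K : Type} [Field F] [NumberField F] [Field K] [NumberField K] [Algebra F K]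
  {V : Type} [AddCommGroup V]
  [DistribMulAction (K ≃ₐ[F] K) V] {ι : Type} {Lf : ι → Type} [∀ i, Field (Lf i)]
  {em : (i : ι) → Lf i →+* K} {rp : ι → V} [∀ i, NumberField (Lf i)] {P : Type} [Fintype P]
  {n : ι → ℕ} {bs : (i : ι) → Module.Basis (Fin (n i)) ℤ (𝓞 (Lf i))}
    {ev : ((i : ι) → 𝓞 (Lf i)) →+* (V → 𝓞 K)} {l : ℕ} {v : P → HeightOneSpectrum (𝓞 F)}
    {w : P → HeightOneSpectrum (𝓞 K)} {q : P → ℕ} {φ : P → (K ≃ₐ[F] K)}
    {R : Vm n l → (p : P) → V → 𝓞 K ⧸ (w p).asIdeal} {M : ℕ}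

open Classical in
theorem LD_chrB [Fintype V] [DecidableEq ι] (h : LD bs rp ev l v w q φ R) (hR : Rp F Lf em rp)
    (hev : IsEv F em rp ev)
    {T : Set (Fin M → V → 𝓞 K)} (hloc : ∀ p, q p = l → LocB (w p) l (φ p) T)
    (hsp : ∀ p, q p = l ∧ φ p = 1 ∧ Nat.card (𝓞 K ⧸ (w p).asIdeal) = l) (p0 : P)
    (S : Finset (ι × Fin M)) (i0 : ι) (m0 : Fin M) (hi0 : (i0, m0) ∉ S) (χ : V →+ ZMod 2)
    (hχ : ∀ s m, (orbOf hR s, m) ∈ S → χ s = 0)
    (hχ0 : χ (rp i0) ≠ 0) :
    ∃ ψ : 𝓞 (Lf i0) → ℝ, (∀ α β, ψ (α * β) = ψ α * ψ β) ∧ (∀ α, |ψ α| ≤ 1) ∧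
      (∀ α β, (l : 𝓞 (Lf i0)) ∣ α - β → ψ α = ψ β) ∧
      (∃ u w' : 𝓞 (Lf i0), (l : 𝓞 (Lf i0)) ∣ u * w' - 1 ∧ ψ u = -1) ∧
      (∀ α, Un l α → ψ α = 1 ∨ ψ α = -1) ∧
      ∀ z : Vc (fun x : ι × Fin M => n x.1), ∃ e : ℝ, (e = 1 ∨ e = -1) ∧
        ∀ y : Fin (n i0) → ℤ, ψ (∑ j, y j • bs i0 j) = -e →
        (∃ p0 : P, ∀ y' ∈ OmRB T q φ R,
          (∀ i m, (i, m) ∉ S → y' m i =
            rd (fun x : ι × Fin M => n x.1) l (Function.update z (i0, m0) y) (i, m)) →
              ∀ m, R (y' m) p0 0 ≠ 0) ∨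
        ∃ x, x ∉ S ∧ rd (fun x : ι × Fin M => n x.1) l (Function.update z (i0, m0) y) x ∉
          UR (F := F) rp R x.1 := by
  letI : ∀ p, Field (𝓞 K ⧸ (w p).asIdeal) := fun p => fld (w p)
  letI : ∀ p, Fintype (𝓞 K ⧸ (w p).asIdeal) := fun p => @Fintype.ofFinite _ (h.fin p)
  have hcardk : ∀ p, Fintype.card (𝓞 K ⧸ (w p).asIdeal) = l := by
    intro p
    rw [← Nat.card_eq_fintype_card, (hsp p).2.2]
  have hl0 : ((l : ℕ) : 𝓞 K ⧸ (w p0).asIdeal) = 0 := by
    have := Ideal.Quotient.eq_zero_iff_mem.2 (h.abw p0)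
    rwa [map_natCast] at this
  have hchar : ringChar (𝓞 K ⧸ (w p0).asIdeal) ≠ 2 := by
    intro hc
    have h1 := ringChar.dvd hl0
    rw [hc] at h1
    exact h.l2 ((Nat.prime_dvd_prime_iff_eq Nat.prime_two h.lp).1 h1).symm
  have hodd : l % 2 = 1 := by
    rcases h.lp.eq_two_or_odd with h1 | h1
    · exact absurd h1 h.l2
    · exact h1
  have hhalf : Fintype.card (𝓞 K ⧸ (w p0).asIdeal) / 2 = (l - 1) / 2 := by
    rw [hcardk p0]
    omega
  let Q : Finset V := univ.filter (fun s => orbOf hR s = i0 ∧ χ s ≠ 0)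
  let Pf : 𝓞 (Lf i0) → 𝓞 K ⧸ (w p0).asIdeal := fun α =>
    ∏ s ∈ Q, Ideal.Quotient.mk (w p0).asIdeal (ev (Pi.single i0 α) s)
  have hQg : ∀ s ∈ Q, ∃ g : K ≃ₐ[F] K, g • rp i0 = s := by
    intro s hs
    have := (mem_filter.1 hs).2.1
    exact (orbOf_iff hR s i0).1 this
  have hmul : ∀ α β, Pf (α * β) = Pf α * Pf β := by
    intro α β
    show (∏ s ∈ Q, _) = (∏ s ∈ Q, _) * (∏ s ∈ Q, _)
    rw [← Finset.prod_mul_distrib]
    refine Finset.prod_congr rfl fun s _ => ?_
    rw [← map_mul, Pi.single_mul, map_mul]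
    rfl
  have hcoord : ∀ (x : Vc n) (s : V), s ∈ Q →
      Ideal.Quotient.mk (w p0).asIdeal (ev (Pi.single i0 (∑ j, x i0 j • bs i0 j)) s) =
        R (rd n l x) p0 s := by
    intro x s hs
    obtain ⟨g, hg⟩ := hQg s hs
    rw [h.red, ← hg]
    simp only
    rw [ev_single hev (fun i => ∑ j, x i j • bs i j) g i0]
  refine ⟨fun α => ((quadraticChar (𝓞 K ⧸ (w p0).asIdeal) (Pf α) : ℤ) : ℝ), ?_, ?_, ?_, ?_, ?_, ?_⟩
  · intro α β
    simp only [hmul, map_mul, Int.cast_mul]
  · intro α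
    by_cases h0 : Pf α = 0
    · simp only [h0, quadraticChar_zero, Int.cast_zero, abs_zero]
      norm_num
    · rcases quadraticChar_dichotomy h0 with h1 | h1
      · simp only [h1]; norm_num
      · simp only [h1]; norm_num
  · intro α β hd
    have hPP : Pf α = Pf β := by
      refine Finset.prod_congr rfl fun s hs => ?_
      obtain ⟨g, hg⟩ := hQg s hs
      rw [← hg, ev_val hev, ev_val hev, Pi.single_eq_same, Pi.single_eq_same]
      rw [← sub_eq_zero, ← map_sub, ← map_sub, Ideal.Quotient.eq_zero_iff_mem]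
      obtain ⟨c, hc⟩ := hd
      rw [hc, map_mul, map_natCast]
      exact Ideal.mul_mem_right _ _ (h.abw p0)
    simp only [hPP]
  · -- a nonresidue
    obtain ⟨a, ha⟩ := quadraticChar_exists_neg_one' hchar
    have himg : ∀ c : (p : P) → V → 𝓞 K ⧸ (w p).asIdeal, ∃ x : Vc n, R (rd n l x) = c := by
      intro c
      obtain ⟨y, hy⟩ := (h.img c).2 (by
        intro p s
        rw [(hsp p).2.1, one_smul, (hsp p).1]
        have := FiniteField.pow_card (c p s)
        rw [hcardk p] at this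
        exact this.symm)
      obtain ⟨x, hx⟩ := rd_surj h.lp.ne_zero y
      exact ⟨x, by rw [hx, hy]⟩
    obtain ⟨c, hc⟩ : ∃ c : (p : P) → V → 𝓞 K ⧸ (w p).asIdeal, c =
      Function.update (β := fun p => V → 𝓞 K ⧸ (w p).asIdeal) (fun _ _ => 1) p0 (fun s => if s = rp i0 then (a : 𝓞 K ⧸ (w p0).asIdeal) else 1) :=
      ⟨_, rfl⟩
    obtain ⟨c', hc'⟩ : ∃ c' : (p : P) → V → 𝓞 K ⧸ (w p).asIdeal, c' =
      Function.update (β := fun p => V → 𝓞 K ⧸ (w p).asIdeal) (fun _ _ => 1) p0 (fun s => if s = rp i0 then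
        ((a⁻¹ : (𝓞 K ⧸ (w p0).asIdeal)ˣ) : 𝓞 K ⧸ (w p0).asIdeal) else 1) := ⟨_, rfl⟩
    have hcc : ∀ p s, c p s * c' p s = 1 := by
      intro p s
      by_cases hp : p = p0
      · subst hp
        rw [hc, hc', Function.update_self, Function.update_self]
        split_ifs
        · exact Units.mul_inv a
        · exact one_mul 1
      · rw [hc, hc', Function.update_of_ne hp, Function.update_of_ne hp]
        exact one_mul 1
    have hc0 : ∀ s, c p0 s = if s = rp i0 then (a : 𝓞 K ⧸ (w p0).asIdeal) else 1 := by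
      intro s
      rw [hc, Function.update_self]
    obtain ⟨x, hx⟩ := himg c
    obtain ⟨x', hx'⟩ := himg c'
    have hrpQ : rp i0 ∈ Q := by
      simp only [Q, mem_filter, mem_univ, true_and]
      exact ⟨orbOf_rp hR i0, hχ0⟩
    refine ⟨∑ j, x i0 j • bs i0 j, ∑ j, x' i0 j • bs i0 j, ?_, ?_⟩
    · obtain ⟨u, hu⟩ : ∃ u, u = ∑ j, x i0 j • bs i0 j := ⟨_, rfl⟩
      obtain ⟨u', hu'⟩ : ∃ u', u' = ∑ j, x' i0 j • bs i0 j := ⟨_, rfl⟩
      rw [← hu, ← hu']
      have e1 := (h.cmp (rd n l (fun i j => (bs i).repr ((Pi.single i0 (u * u') : (i : ι) → 𝓞 (Lf i)) i) j))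
        (rd n l (fun i j => (bs i).repr 1 j)) i0).2 (by
          intro p g
          rw [h.red, h.red]
          have e2 : (fun i => ∑ j, ((bs i).repr 1 j) • bs i j) = (1 : (i : ι) → 𝓞 (Lf i)) := by
            funext i
            rw [(bs i).sum_repr]
            rfl
          have e3 : (fun i => ∑ j, ((bs i).repr ((Pi.single i0 (u * u') : (i : ι) → 𝓞 (Lf i)) i) j) • bs i j) =
              (Pi.single i0 (u * u') : (i : ι) → 𝓞 (Lf i)) := by
            funext i
            rw [(bs i).sum_repr]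
          simp only [e2, e3, map_one, Pi.one_apply]
          rw [Pi.single_mul, map_mul, Pi.mul_apply, map_mul]
          have e4 : Ideal.Quotient.mk (w p).asIdeal (ev (Pi.single i0 u) (g • rp i0)) =
              c p (g • rp i0) := by
            have := congrFun (congrFun hx p) (g • rp i0)
            rw [h.red] at this
            simp only at this
            rw [← this, hu, ev_single hev (fun i => ∑ j, x i j • bs i j) g i0]
          have e5 : Ideal.Quotient.mk (w p).asIdeal (ev (Pi.single i0 u') (g • rp i0)) =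
              c' p (g • rp i0) := by
            have := congrFun (congrFun hx' p) (g • rp i0)
            rw [h.red] at this
            simp only at this
            rw [← this, hu', ev_single hev (fun i => ∑ j, x' i j • bs i j) g i0]
          rw [e4, e5]
          exact hcc _ _)
      have e6 : ∀ j, (l : ℤ) ∣ (bs i0).repr (u * u' - 1) j := by
        intro j
        have := congrFun e1 j
        simp only [rd, Pi.single_eq_same] at this
        rw [← sub_eq_zero, ← Int.cast_sub, ZMod.intCast_zmod_eq_zero_iff_dvd] at this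
        rw [map_sub]
        exact this
      choose d hd using e6
      rw [← (bs i0).sum_repr (u * u' - 1)]
      refine Finset.dvd_sum fun j _ => ?_
      rw [hd j, zsmul_eq_mul, Int.cast_mul, Int.cast_natCast, mul_assoc]
      exact Dvd.intro _ rfl
    · have e1 : Pf (∑ j, x i0 j • bs i0 j) = (a : 𝓞 K ⧸ (w p0).asIdeal) := by
        show (∏ s ∈ Q, _) = _
        rw [Finset.prod_congr rfl (fun s hs => hcoord x s hs), hx]
        rw [Finset.prod_congr rfl (fun s _ => hc0 s)]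
        rw [Finset.prod_ite_eq' Q (rp i0) (fun _ => (a : 𝓞 K ⧸ (w p0).asIdeal)), if_pos hrpQ]
      simp only [e1, ha]
      norm_num
  · intro α hα
    have h0 : Pf α ≠ 0 := by
      refine Finset.prod_ne_zero_iff.2 fun s hs => ?_
      obtain ⟨g, hg⟩ := hQg s hs
      rw [← hg, ev_val hev, Pi.single_eq_same]
      intro hcon
      obtain ⟨v, hv, hv2⟩ := exists_prm (w := w p0)
        (RingOfIntegers.mapRingHom (((g : K →ₐ[F] K) : K →+* K).comp (em i0))) h.lp.ne_zero
        (h.abw p0)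
      exact hα v hv ((hv2 α).2 (Ideal.Quotient.eq_zero_iff_mem.1 hcon))
    rcases quadraticChar_dichotomy h0 with h1 | h1
    · left; simp only [h1]; norm_num
    · right; simp only [h1]; norm_num
  · intro z
    by_contra hcon
    push Not at hcon
    obtain ⟨y1, hy1, hI1, hd1⟩ := hcon 1 (Or.inl rfl)
    obtain ⟨y2, hy2, hI2, hd2⟩ := hcon (-1) (Or.inr rfl)
    obtain ⟨a1, ha1, hb1, m1, hc1⟩ := hI1 p0
    obtain ⟨a2, ha2, hb2, m2, hc2⟩ := hI2 p0
    obtain ⟨ξ, hξ⟩ := LD_xiB h hloc p0 (hsp p0).1 0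
    have g1 := hξ a1 ha1 m1 hc1 χ (by intro s; rw [(hsp p0).2.1, one_smul])
    have g2 := hξ a2 ha2 m2 hc2 χ (by intro s; rw [(hsp p0).2.1, one_smul])
    simp only [sub_zero] at g1 g2
    have hnS : ∀ s, χ s ≠ 0 → ∀ m, (orbOf hR s, m) ∉ S := fun s hs m hh => hs (hχ s m hh)
    -- the splitting of the product
    have hsplit : ∀ c : Fin M → V → 𝓞 K ⧸ (w p0).asIdeal,
        ∏ s ∈ univ.filter (fun s => χ s ≠ 0), ∏ j, c j s =
        (∏ s ∈ Q, c m0 s) * ((∏ s ∈ Q, ∏ j ∈ univ.erase m0, c j s) *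
          ∏ s ∈ univ.filter (fun s => χ s ≠ 0 ∧ orbOf hR s ≠ i0), ∏ j, c j s) := by
      intro c
      rw [← Finset.prod_filter_mul_prod_filter_not (univ.filter (fun s => χ s ≠ 0)) (fun s => orbOf hR s = i0),
        ← mul_assoc, ← Finset.prod_mul_distrib]
      congr 1
      · refine Finset.prod_congr ?_ fun s _ => ?_
        · ext s
          simp only [Q, mem_filter, mem_univ, true_and]
          tauto
        · exact (Finset.mul_prod_erase univ (fun j => c j s) (mem_univ m0)).symm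
      · refine Finset.prod_congr ?_ fun _ _ => rfl
        ext s
        simp only [mem_filter, mem_univ, true_and]
    have hPa : ∀ (a : Fin M → Vm n l) (y : Fin (n i0) → ℤ),
        (∀ i m, (i, m) ∉ S → a m i =
          rd (fun x : ι × Fin M => n x.1) l (Function.update z (i0, m0) y) (i, m)) →
        ∏ s ∈ Q, R (a m0) p0 s = Pf (∑ j, y j • bs i0 j) := by
      intro a y hb
      refine Finset.prod_congr rfl fun s hs => ?_
      have e1 := hcoord (blkc (Function.update z (i0, m0) y) m0) s hs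
      have e0 : blkc (Function.update z (i0, m0) y) m0 i0 = y := by
        show Function.update z (i0, m0) y (i0, m0) = y
        rw [Function.update_self]
      rw [e0] at e1
      rw [e1]
      obtain ⟨g, hg⟩ := hQg s hs
      rw [← hg]
      exact (h.cmp (a m0) (rd n l (blkc (Function.update z (i0, m0) y) m0)) i0).1 (hb i0 m0 hi0) p0 g
    -- the other values agree
    have hagree : ∀ s, χ s ≠ 0 → ∀ m, (orbOf hR s, m) ≠ (i0, m0) → R (a1 m) p0 s = R (a2 m) p0 s := by
      intro s hs m hne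
      have hs3 := hnS s hs m
      obtain ⟨g, hg⟩ := orbOf_spec hR s
      have e1 : a1 m (orbOf hR s) = a2 m (orbOf hR s) := by
        rw [hb1 _ m hs3, hb2 _ m hs3]
        funext j
        simp only [rd]
        rw [Function.update_of_ne hne, Function.update_of_ne hne]
      have := (h.cmp (a1 m) (a2 m) _).1 e1 p0 g
      rwa [hg] at this
    have hunit : ∀ s, χ s ≠ 0 → ∀ m, R (a2 m) p0 s ≠ 0 := by
      intro s hs m
      have hs3 := hnS s hs m
      refine h.U_ne' hR ?_ p0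
      rw [hb2 _ m hs3]
      exact hd2 _ hs3
    have hQχ : ∀ s ∈ Q, χ s ≠ 0 ∧ orbOf hR s = i0 := by
      intro s hs
      have := (mem_filter.1 hs).2
      exact ⟨this.2, this.1⟩
    have hrest : (∏ s ∈ Q, ∏ j ∈ univ.erase m0, R (a1 j) p0 s) *
          ∏ s ∈ univ.filter (fun s => χ s ≠ 0 ∧ orbOf hR s ≠ i0), ∏ j, R (a1 j) p0 s =
        (∏ s ∈ Q, ∏ j ∈ univ.erase m0, R (a2 j) p0 s) *
          ∏ s ∈ univ.filter (fun s => χ s ≠ 0 ∧ orbOf hR s ≠ i0), ∏ j, R (a2 j) p0 s := by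
      congr 1
      · refine Finset.prod_congr rfl fun s hs => Finset.prod_congr rfl fun j hj => ?_
        refine hagree s (hQχ s hs).1 j fun h3 => (mem_erase.1 hj).1 (congrArg Prod.snd h3)
      · refine Finset.prod_congr rfl fun s hs => Finset.prod_congr rfl fun j _ => ?_
        obtain ⟨hs1, hs2⟩ := (mem_filter.1 hs).2
        exact hagree s hs1 j fun h3 => hs2 (congrArg Prod.fst h3)
    have hne : (∏ s ∈ Q, ∏ j ∈ univ.erase m0, R (a2 j) p0 s) *
          ∏ s ∈ univ.filter (fun s => χ s ≠ 0 ∧ orbOf hR s ≠ i0), ∏ j, R (a2 j) p0 s ≠ 0 := by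
      refine mul_ne_zero ?_ ?_
      · exact Finset.prod_ne_zero_iff.2 fun s hs => Finset.prod_ne_zero_iff.2 fun j _ =>
          hunit s (hQχ s hs).1 j
      · refine Finset.prod_ne_zero_iff.2 fun s hs => Finset.prod_ne_zero_iff.2 fun j _ => ?_
        exact hunit s (mem_filter.1 hs).2.1 j
    rw [hsplit (fun j => R (a1 j) p0), hPa a1 y1 hb1, hrest, mul_pow] at g1
    rw [hsplit (fun j => R (a2 j) p0), hPa a2 y2 hb2, mul_pow] at g2
    have g3 := mul_right_cancel₀ (pow_ne_zero _ hne) (g1.trans g2.symm)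
    have k1 := quadraticChar_eq_pow_of_char_ne_two' hchar (Pf (∑ j, y1 j • bs i0 j))
    have k2 := quadraticChar_eq_pow_of_char_ne_two' hchar (Pf (∑ j, y2 j • bs i0 j))
    rw [hhalf] at k1 k2
    have q1 : quadraticChar (𝓞 K ⧸ (w p0).asIdeal) (Pf (∑ j, y1 j • bs i0 j)) = -1 := by
      exact_mod_cast hy1
    have q2 : quadraticChar (𝓞 K ⧸ (w p0).asIdeal) (Pf (∑ j, y2 j • bs i0 j)) = 1 := by
      rw [neg_neg] at hy2
      exact_mod_cast hy2
    rw [q1, g3] at k1
    rw [q2] at k2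
    have k3 : ((-1 : ℤ) : 𝓞 K ⧸ (w p0).asIdeal) = ((1 : ℤ) : 𝓞 K ⧸ (w p0).asIdeal) :=
      k1.trans k2.symm
    simp only [Int.cast_neg, Int.cast_one] at k3
    exact Ring.neg_one_ne_one_of_char_ne_two hchar k3

end K

end Pool.Agent.Q299.ESB
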