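import Pool.Agent.Q208.ESN.Sys
import Pool.Agent.Q299.ESB.SysB0
import Pool.Agent.Q247.EL.SIEVE

/-!
# Project ESB, job SYS, part 4: assembly
-/

set_option autoImplicit false
set_option linter.unusedSectionVars false
set_option linter.unusedVariables false
set_option linter.style.haveILetI false

namespace Pool.Agent.Q299.ESB

open NumberField IsDedekindDomain Finset
open Pool.Agent.Q161.ESB
open Pool.Agent.Q161.ESN (ChP)
open Pool.Agent.Q208.ESN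
open Pool.Agent.Q51.EL (pr Abv N1)
open Pool.Agent.Q161.EA (Un S_MER)

section K

variable {F K : Type} [Field F] [NumberField F] [Field K] [NumberField K] [Algebra F K]
  {V : Type} [AddCommGroup V]
  [DistribMulAction (K ≃ₐ[F] K) V] {ι : Type} {Lf : ι → Type} [∀ i, Field (Lf i)]
  {em : (i : ι) → Lf i →+* K} {rp : ι → V} [∀ i, NumberField (Lf i)] {M : ℕ}

/-- the data of the sieve -/
noncomputable def mkSyB (hR : Rp F Lf em rp) {n : ι → ℕ}
    (bs : (i : ι) → Module.Basis (Fin (n i)) ℤ (𝓞 (Lf i))) (K0 : ℝ) (B' : ℕ)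
    (Om : (l : ℕ) → Set (Fin M → Vm n l)) (U : (l : ℕ) → (i : ι) → Set (Fin (n i) → ZMod l))
    (I : (l : ℕ) → Finset (ι × Fin M) → (Fin M → Vm n l) → Prop) : Sy (fun x : ι × Fin M => n x.1) where
  B := B'
  Om := fun l => {y | blk y ∈ Om l}
  U := fun l x => U l x.1
  Nm := fun i x => Ideal.absNorm (Ideal.span {∑ j, x j • bs i.1 j})
  Nc := fun i => {x | Nice K0 (∑ j, x j • bs i.1 j)}
  N1 := fun i l => N1 (Lf i.1) l
  N0 := fun l => M * N1 F l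
  sp := {l : ℕ | N1 K l = Module.finrank ℚ K}
  Bad := fun S => BadB (orbOf hR) S
  Inc := fun S l x => I l S (fun m => rd n l (blkc x m))

/-- the equivalence of the two forms of the vectors -/
def blkE (n : ι → ℕ) (l : ℕ) : Vm (fun x : ι × Fin M => n x.1) l ≃ (Fin M → Vm n l) where
  toFun := blk
  invFun y := fun x => y x.2 x.1
  left_inv _ := rfl
  right_inv _ := rfl

theorem cnt_blk {n : ι → ℕ} {l : ℕ} (Om : Set (Fin M → Vm n l)) (S : Finset (ι × Fin M))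
    (z : Vc (fun x : ι × Fin M => n x.1)) :
    {y : Vm (fun x : ι × Fin M => n x.1) l | blk y ∈ Om ∧
      ∀ i, i ∉ S → y i = rd (fun x : ι × Fin M => n x.1) l z i}.ncard =
    {y : Fin M → Vm n l | y ∈ Om ∧ ∀ i m, (i, m) ∉ S → y m i = rd n l (blkc z m) i}.ncard := by
  rw [← Set.ncard_image_of_injective _ (blkE (M := M) n l).injective]
  congr 1
  ext y
  simp only [Set.mem_image, Set.mem_ofPred_eq]
  constructor
  · rintro ⟨y', ⟨h1, h2⟩, rfl⟩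
    exact ⟨h1, fun i m hi => h2 (i, m) hi⟩
  · rintro ⟨h1, h2⟩
    exact ⟨(blkE n l).symm y, ⟨h1, fun x hx => h2 x.1 x.2 hx⟩, rfl⟩

theorem ok_ofB (hMER : S_MER) (hM0 : 1 ≤ M) [Fintype V] [Fintype ι] [DecidableEq ι] (hR : Rp F Lf em rp)
    {ev : ((i : ι) → 𝓞 (Lf i)) →+* (V → 𝓞 K)} {n : ι → ℕ}
    (bs : (i : ι) → Module.Basis (Fin (n i)) ℤ (𝓞 (Lf i)))
    (hn : ∀ i, n i = Module.finrank ℚ (Lf i)) (T : Set (Fin M → V → 𝓞 K)) (K0 : ℝ) (B' : ℕ) (hB' : B' ≠ 0)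
    (A0 κ : ℝ) (hκ : 0 < κ)
    (Om : (l : ℕ) → Set (Fin M → Vm n l)) (U : (l : ℕ) → (i : ι) → Set (Fin (n i) → ZMod l))
    (I : (l : ℕ) → Finset (ι × Fin M) → (Fin M → Vm n l) → Prop)
    (hL : ∀ l : ℕ, l.Prime → ¬ l ∣ B' → LPB hR bs ev T A0 κ l (Om l) (U l) (I l)) :
    ∃ A c : ℝ, Ok M (mkSyB hR bs K0 B' Om U I) A c κ := by
  classical
  choose Me hM1 hM using fun i => Pool.Agent.Q38.ESM.emb_bound (bs i)
  choose Cm hCm using fun i => hMER (Lf i)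
  obtain ⟨CK, hCK⟩ := hMER K
  obtain ⟨CF, hCF⟩ := hMER F
  obtain ⟨Ae, hAe⟩ := Pool.Agent.Q38.ESM.mes_lemma K CK hCK B' hB'
    (fun l hl hlB => (hL l hl hlB).split)
    (mkSyB hR bs K0 B' Om U I).sp (fun _ => Iff.rfl)
  obtain ⟨v, hv⟩ : ∃ v : ℝ, v = (Module.finrank ℚ F : ℝ) * Fintype.card V := ⟨_, rfl⟩
  have hv0 : 0 ≤ v := by rw [hv]; positivity
  obtain ⟨d, hd⟩ : ∃ d : ℝ, d = (Module.finrank ℚ F : ℝ) := ⟨_, rfl⟩
  have hd0 : 0 ≤ d := by rw [hd]; positivity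
  obtain ⟨G, hG⟩ : ∃ G : ι → ℝ, ∀ i, G i = Me i ^ n i + (∑ p ∈ B'.primeFactors, (N1 (Lf i) p : ℝ)) + |Cm i| :=
    ⟨fun i => Me i ^ n i + (∑ p ∈ B'.primeFactors, (N1 (Lf i) p : ℝ)) + |Cm i|, fun i => rfl⟩
  have hMp : ∀ i, 0 ≤ Me i ^ n i := fun i => pow_nonneg (by linarith [hM1 i]) _
  have hNp : ∀ i, 0 ≤ ∑ p ∈ B'.primeFactors, (N1 (Lf i) p : ℝ) := fun i =>
    Finset.sum_nonneg fun _ _ => Nat.cast_nonneg _
  obtain ⟨g, hg⟩ : ∃ g : ℝ, g = ∑ p ∈ B'.primeFactors, (N1 F p : ℝ) := ⟨_, rfl⟩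
  have hg0 : 0 ≤ g := by
    rw [hg]
    exact Finset.sum_nonneg fun _ _ => Nat.cast_nonneg _
  have hG0 : ∀ i, 0 ≤ G i := by
    intro i
    rw [hG]
    have := hMp i
    have := hNp i
    positivity
  obtain ⟨A, hA⟩ : ∃ A : ℝ, A = 1 + v + M * d + M * g + M * |CF| + |A0| + (∑ i, G i) + |Ae| := ⟨_, rfl⟩
  have hGs : 0 ≤ ∑ i, G i := Finset.sum_nonneg fun i _ => hG0 i
  have hAe0 := abs_nonneg Ae
  have hCF0 := abs_nonneg CF
  have hA00 := abs_nonneg A0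
  have hMR : (0 : ℝ) ≤ M := Nat.cast_nonneg M
  have hMd : 0 ≤ M * d := by positivity
  have hMg : 0 ≤ M * g := by positivity
  have hMF : 0 ≤ M * |CF| := by positivity
  have hA1 : 1 ≤ A := by rw [hA]; linarith
  have hAv : v ≤ A := by rw [hA]; linarith
  have hAdg : M * d ≤ A := by rw [hA]; linarith
  have hAg : M * g ≤ A := by rw [hA]; linarith
  have hAF : M * CF ≤ A := by
    have := mul_le_mul_of_nonneg_left (le_abs_self CF) hMR
    rw [hA]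
    linarith
  have hAA : A0 ≤ A := by
    have := le_abs_self A0
    rw [hA]
    linarith
  have hAG : ∀ i, G i ≤ A := by
    intro i
    have := Finset.single_le_sum (f := G) (fun i _ => hG0 i) (mem_univ i)
    rw [hA]
    linarith
  have hAe' : Ae ≤ A := by
    have := le_abs_self Ae
    rw [hA]
    linarith
  have hl2 : ∀ (l : ℕ), A0 / (l : ℝ) ^ 2 ≤ A / (l : ℝ) ^ 2 := fun l =>
    div_le_div_of_nonneg_right hAA (by positivity)
  have hfin : (0 : ℝ) < Module.finrank ℚ K := by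
    exact_mod_cast (Module.finrank_pos (R := ℚ) (M := K))
  refine ⟨A, 1 / (Module.finrank ℚ K : ℝ),
    { M1 := hM0
      A1 := hA1
      c0 := by positivity
      κ0 := hκ
      B0 := hB'
      n1 := ?_
      unit := ?_
      cU := ?_
      nm := ?_
      nb := ?_
      n0 := ?_
      nle := ?_
      nle0 := ?_
      dens := ?_
      good := ?_
      bad := ?_
      mer := ?_
      mer0 := ?_
      mes := ?_ }⟩
  · intro i
    show 1 ≤ n i.1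
    rw [hn i.1]
    exact Module.finrank_pos
  · intro l hl hlB y hy
    exact (hL l hl hlB).unit (blk y) fun i m => hy (i, m)
  · intro l hl hlB i
    refine ((hL l hl hlB).cU i.1).trans ?_
    rw [← hv]
    exact mul_le_mul_of_nonneg_right hAv (by positivity)
  · intro l hl hlB i x hx
    obtain ⟨w, hw1, hw2⟩ := (hL l hl hlB).nm i.1 x hx
    exact Pool.Agent.Q38.ESM.dvd_norm hl hw1 hw2
  · intro i x H hH hx
    have h1 := Pool.Agent.Q38.ESM.absNorm_le (hM i.1 x H (by linarith) hx)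
    rw [mul_pow, ← hn i.1] at h1
    refine h1.trans (mul_le_mul_of_nonneg_right ?_ (by positivity))
    refine le_trans ?_ (hAG i.1)
    rw [hG]
    have := hNp i.1
    have := abs_nonneg (Cm i.1)
    linarith
  · intro i x hx hcon
    have h1 : (∑ j, x j • bs i.1 j) ≠ 0 := hx.ne
    rw [show (mkSyB hR bs K0 B' Om U I).Nm i x = Ideal.absNorm (Ideal.span {∑ j, x j • bs i.1 j}) from rfl,
      Ideal.absNorm_eq_zero_iff, Ideal.span_singleton_eq_bot] at hcon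
    exact h1 hcon
  · rintro ⟨i, m⟩ l hl
    show (N1 (Lf i) l : ℝ) ≤ A
    by_cases hlB : l ∣ B'
    · have h1 : (N1 (Lf i) l : ℝ) ≤ ∑ p ∈ B'.primeFactors, (N1 (Lf i) p : ℝ) :=
        Finset.single_le_sum (f := fun p => (N1 (Lf i) p : ℝ)) (fun _ _ => Nat.cast_nonneg _)
          (Nat.mem_primeFactors.2 ⟨hl, hlB, hB'⟩)
      refine le_trans ?_ (hAG i)
      rw [hG]
      have := hMp i
      have := abs_nonneg (Cm i)
      linarith
    · have h1 : (N1 (Lf i) l : ℝ) ≤ v := by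
        rw [hv]
        exact (hL l hl hlB).n1 i
      linarith
  · intro l hl
    show ((M * N1 F l : ℕ) : ℝ) ≤ A
    rw [Nat.cast_mul]
    by_cases hlB : l ∣ B'
    · have h1 : (N1 F l : ℝ) ≤ ∑ p ∈ B'.primeFactors, (N1 F p : ℝ) :=
        Finset.single_le_sum (f := fun p => (N1 F p : ℝ)) (fun _ _ => Nat.cast_nonneg _)
          (Nat.mem_primeFactors.2 ⟨hl, hlB, hB'⟩)
      rw [← hg] at h1
      exact (mul_le_mul_of_nonneg_left h1 hMR).trans hAg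
    · have h1 : (N1 F l : ℝ) ≤ d := by
        rw [hd]
        exact (hL l hl hlB).n0
      exact (mul_le_mul_of_nonneg_left h1 hMR).trans hAdg
  · intro l hl hlB S hS z hz
    have h1 := (hL l hl hlB).dens S hS (fun m => rd n l (blkc z m)) fun i m him => hz (i, m) him
    rw [← cnt_blk (Om l) S z] at h1
    refine le_trans h1 ?_
    have := hl2 l
    exact add_le_add_right this _
  · intro l hl hlB hsp S hS _ hbad z hz
    have h1 := (hL l hl hlB).good hsp S hS hbad (fun m => rd n l (blkc z m)) fun i m him => hz (i, m) him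
    rw [← cnt_blk (Om l) S z] at h1
    refine le_trans h1 ?_
    have := hl2 l
    exact add_le_add_right this _
  · intro l hl hlB hsp S hS _ hbad z hz hinc
    have h1 := (hL l hl hlB).bad hsp S hS hbad (fun m => rd n l (blkc z m)) (fun i m him => hz (i, m) him) hinc
    rw [← cnt_blk (Om l) S z] at h1
    refine le_trans h1 ?_
    have := hl2 l
    exact add_le_add_right this _
  · rintro ⟨i, m⟩ Y hY
    refine (hCm i Y hY).trans ?_
    refine le_trans ?_ (hAG i)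
    rw [hG]
    have := hMp i
    have := hNp i
    have := le_abs_self (Cm i)
    linarith
  · intro Y hY
    have h1 := hCF Y hY
    have h2 : ∑ l ∈ pr Y, ((mkSyB hR bs K0 B' Om U I).N0 l : ℝ) / l - M * Real.log (Real.log Y) =
        M * (∑ l ∈ pr Y, (N1 F l : ℝ) / l - Real.log (Real.log Y)) := by
      rw [mul_sub, Finset.mul_sum]
      congr 1
      refine Finset.sum_congr rfl fun l _ => ?_
      show ((M * N1 F l : ℕ) : ℝ) / l = _
      rw [Nat.cast_mul, mul_div_assoc]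
    rw [h2, abs_mul, abs_of_nonneg hMR]
    exact (mul_le_mul_of_nonneg_left h1 hMR).trans hAF
  · intro Y hY
    exact (hAe Y hY).trans hAe'

open Classical in
theorem ex_ofB (hEXC : S_EXC2) [Fintype V] [Fintype ι] [DecidableEq ι] (h2 : ∀ v : V, v + v = 0)
    (hR : Rp F Lf em rp)
    {ev : ((i : ι) → 𝓞 (Lf i)) →+* (V → 𝓞 K)} {n : ι → ℕ}
    (bs : (i : ι) → Module.Basis (Fin (n i)) ℤ (𝓞 (Lf i)))
    (hn : ∀ i, n i = Module.finrank ℚ (Lf i)) (T : Set (Fin M → V → 𝓞 K)) (K0 : ℝ) (B' : ℕ) (hB' : B' ≠ 0)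
    (A0 κ : ℝ)
    (Om : (l : ℕ) → Set (Fin M → Vm n l)) (U : (l : ℕ) → (i : ι) → Set (Fin (n i) → ZMod l))
    (I : (l : ℕ) → Finset (ι × Fin M) → (Fin M → Vm n l) → Prop)
    (hL : ∀ l : ℕ, l.Prime → ¬ l ∣ B' → LPB hR bs ev T A0 κ l (Om l) (U l) (I l)) (A c : ℝ)
    (hOk : Ok M (mkSyB hR bs K0 B' Om U I) A c κ) : Ex (mkSyB hR bs K0 B' Om U I) := by
  rintro S hS hSu hbad ⟨i0, m0⟩ hi0 A1
  obtain ⟨χ, hχ', hχ0⟩ := Pool.Agent.Q38.ESM.exists_phi h2 {s : V | ∃ m, (orbOf hR s, m) ∈ S} hbad.1 (rp i0) (by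
    rintro ⟨m, hm⟩
    rw [orbOf_rp] at hm
    exact hi0 (hbad.2 i0 m m0 hm))
  have hχ : ∀ s m, (orbOf hR s, m) ∈ S → χ s = 0 := fun s m hm => hχ' s ⟨m, hm⟩
  have hψ : ∀ l : ℕ, ∃ ψ : 𝓞 (Lf i0) → ℝ, (∀ α β, ψ (α * β) = ψ α * ψ β) ∧ (∀ α, |ψ α| ≤ 1) ∧
      (∀ α β, (l : 𝓞 (Lf i0)) ∣ α - β → ψ α = ψ β) ∧
      (l.Prime → ¬ l ∣ B' → N1 K l = Module.finrank ℚ K →
      (∃ u w' : 𝓞 (Lf i0), (l : 𝓞 (Lf i0)) ∣ u * w' - 1 ∧ ψ u = -1) ∧
      (∀ α, Un l α → ψ α = 1 ∨ ψ α = -1) ∧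
      ∀ z : Vc (fun x : ι × Fin M => n x.1), ∃ e : ℝ, (e = 1 ∨ e = -1) ∧
        ∀ y : Fin (n i0) → ℤ, ψ (∑ j, y j • bs i0 j) = -e →
        I l S (fun m => rd n l (blkc (Function.update z (i0, m0) y) m)) ∨
        ∃ x, x ∉ S ∧ rd (fun x : ι × Fin M => n x.1) l (Function.update z (i0, m0) y) x ∉ U l x.1) := by
    intro l
    by_cases hl : l.Prime ∧ ¬ l ∣ B' ∧ N1 K l = Module.finrank ℚ K
    · obtain ⟨ψ, p1, p2, p3, p4, p5, p6⟩ := (hL l hl.1 hl.2.1).chr hl.2.2 S i0 m0 hi0 χ hχ hχ0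
      exact ⟨ψ, p1, p2, p3, fun _ _ _ => ⟨p4, p5, p6⟩⟩
    · refine ⟨fun _ => 1, fun _ _ => (one_mul 1).symm, fun _ => ?_, fun _ _ _ => rfl,
        fun q1 q2 q3 => absurd ⟨q1, q2, q3⟩ hl⟩
      rw [abs_one]
  choose ψ p1 p2 p3 p4 using hψ
  have hChP : ChP (Lf i0) B' (mkSyB hR bs K0 B' Om U I).sp ψ :=
    { mul := p1
      abs := p2
      red := fun l α β _ h => p3 l α β h
      neg := fun l hl hlB hlP => (p4 l hl hlB hlP).1
      unit := fun l α hl hlB hlP hu => (p4 l hl hlB hlP).2.1 α hu }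
  obtain ⟨b, C, Y0, hb, hY0, hmain⟩ := exc_coord hEXC (hn i0) (bs i0) B'
    (mkSyB hR bs K0 B' Om U I).sp ψ K0 A c A1 hB' hOk.c0 hOk.mes hChP
  refine ⟨b, C, Y0, hb, hY0, ?_⟩
  intro Y z E hY hE
  have hε : ∀ l : ℕ, ∃ e : ℝ, (e = 1 ∨ e = -1) ∧
      (l.Prime → ¬ l ∣ B' → N1 K l = Module.finrank ℚ K →
        ∀ y : Fin (n i0) → ℤ, ψ l (∑ j, y j • bs i0 j) = -e →
        I l S (fun m => rd n l (blkc (Function.update z (i0, m0) y) m)) ∨
        ∃ x, x ∉ S ∧ rd (fun x : ι × Fin M => n x.1) l (Function.update z (i0, m0) y) x ∉ U l x.1) := by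
    intro l
    by_cases hl : l.Prime ∧ ¬ l ∣ B' ∧ N1 K l = Module.finrank ℚ K
    · obtain ⟨e, he1, he2⟩ := (p4 l hl.1 hl.2.1 hl.2.2).2.2 z
      exact ⟨e, he1, fun _ _ _ => he2⟩
    · exact ⟨1, Or.inl rfl, fun q1 q2 q3 => absurd ⟨q1, q2, q3⟩ hl⟩
  choose ε hε1 hε2 using hε
  refine hmain Y ε E hY hε1 ?_
  intro y hy
  obtain ⟨hN, hyY, hNx⟩ := hE y hy
  refine ⟨hN, hyY, ?_⟩
  unfold Nx at hNx
  push Not at hNx
  obtain ⟨Z, hZ1, hZ2, hZ3⟩ := hNx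
  refine ⟨Z, hZ1, hZ2, lt_of_le_of_lt ?_ hZ3⟩
  refine Finset.sum_le_sum_of_subset_of_nonneg ?_ (fun _ _ _ => by positivity)
  intro l hl
  obtain ⟨hl1, hl2, hl3, hl4, hl5⟩ := mem_filter.1 hl
  have hlp : l.Prime := (mem_filter.1 hl1).2
  exact mem_filter.2 ⟨hl1, hl2, hl4, hl3, hε2 l hlp hl3 hl4 y hl5⟩

end K

theorem sys0B (hMER : S_MER) (hCNF : S_CNF) (hEVX : S_EVX) (hFRX : S_FRX)
    (hRES : S_RES) (hN1F : S_N1F) (hEXC : S_EXC2) : S_SYS := by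
  intro M F K _ _ _ _ _ _ V _ _ _ hM h2 hsemi hinv ι _ _ Lf _ _ em rp hR ev hev B K0 T hB hTT hloc
  obtain ⟨-, hdeg⟩ := hEVX F K V ι Lf em rp hR
  obtain ⟨BF, hBF, hFr⟩ := hFRX F K
  obtain ⟨A0, κ, hκ, hC⟩ := exists_cstB hCNF M V (K ≃ₐ[F] K) hM h2 hsemi hinv (Module.finrank ℚ F)
  obtain ⟨B', hB'⟩ : ∃ B', B' = 2 * B * BF := ⟨_, rfl⟩
  have hB'0 : B' ≠ 0 := by
    rw [hB']
    exact Nat.mul_ne_zero (Nat.mul_ne_zero two_ne_zero hB) hBF
  have hd2 : ∀ l : ℕ, ¬ l ∣ B' → l ≠ 2 := by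
    rintro l hl rfl
    exact hl (by rw [hB', mul_assoc]; exact Dvd.intro _ rfl)
  have hdB : ∀ l : ℕ, ¬ l ∣ B' → ¬ l ∣ B := by
    intro l hl h
    exact hl (by rw [hB']; exact Dvd.dvd.mul_right (Dvd.dvd.mul_left h 2) BF)
  have hdF : ∀ l : ℕ, ¬ l ∣ B' → ¬ l ∣ BF := by
    intro l hl h
    exact hl (by rw [hB']; exact Dvd.dvd.mul_left h _)
  choose bs C1 hC1 hbs using fun i => Pool.Agent.Q247.EL.exists_basis (Lf i)
  have hLP : ∀ l : ℕ, ∃ (Om : Set (Fin M → Vm (fun i => Module.finrank ℚ (Lf i)) l))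
      (U : (i : ι) → Set (Fin (Module.finrank ℚ (Lf i)) → ZMod l))
      (I : Finset (ι × Fin M) → (Fin M → Vm (fun i => Module.finrank ℚ (Lf i)) l) → Prop),
      (l.Prime → ¬ l ∣ B' → LPB hR bs ev T A0 κ l Om U I) := by
    intro l
    by_cases hl : l.Prime ∧ ¬ l ∣ B'
    · obtain ⟨hsq, hspl, hfr, -⟩ := hFr l hl.1 (hdF l hl.2)
      obtain ⟨Om, U, I, h⟩ := exists_LPB hRES hN1F hC hR hev bs
        hdeg T hl.1 (hd2 l hl.2) hsq hspl hfr
        (fun w φ hw hφ => hloc l hl.1 (hdB l hl.2) w φ hw hφ)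
      exact ⟨Om, U, I, fun _ _ => h⟩
    · exact ⟨Set.univ, fun _ => Set.univ, fun _ _ => True, fun h1 h2 => absurd ⟨h1, h2⟩ hl⟩
  choose Om U I hL using hLP
  obtain ⟨A, c, hOk⟩ := ok_ofB hMER hM hR bs (fun _ => rfl) T K0 B' hB'0 A0 κ hκ Om U I hL
  have hEx := ex_ofB hEXC h2 hR bs (fun _ => rfl) T K0 B' hB'0 A0 κ Om U I hL A c hOk
  have hCs : ∀ i, C1 i ≤ 1 + ∑ i, C1 i := by
    intro i
    have := Finset.single_le_sum (f := C1) (fun i _ => by linarith [hC1 i]) (mem_univ i)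
    linarith
  have hCs0 : 0 ≤ ∑ i, C1 i := Finset.sum_nonneg fun i _ => by linarith [hC1 i]
  refine ⟨fun i => Module.finrank ℚ (Lf i), bs, mkSyB hR bs K0 B' Om U I, A, c, κ, 1 + ∑ i, C1 i,
    hOk, hEx, by linarith, ?_, ?_⟩
  · intro i x Y hY j
    have hY0 : 0 ≤ Y := by
      obtain ⟨σ⟩ : Nonempty (Lf i →+* ℂ) := inferInstance
      exact (norm_nonneg _).trans (hY σ)
    have h1 := hbs i (∑ j, x j • bs i j) Y hY0 hY j
    rw [Module.Basis.repr_sum_self] at h1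
    exact h1.trans (mul_le_mul_of_nonneg_right (hCs i) hY0)
  · intro x hx
    refine ⟨fun l hl hlB => (hL l hl hlB).mem (blkc x) hx, ?_⟩
    rintro ⟨i, m⟩
    obtain ⟨α, hα1, hα2⟩ := (hTT _ hx m).2 i
    rw [hev.val] at hα1
    have h3 : α = ∑ j, x (i, m) j • bs i j := by
      apply RingOfIntegers.ext
      exact (em i).injective hα1
    show Nice K0 (∑ j, x (i, m) j • bs i j)
    rw [← h3]
    exact hα2

/-- **Job SYS.** -/
theorem sys : S_CNF → S_EVX → S_FRX → S_RES → S_N1F → S_EXC2 → S_SYS :=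
  sys0B Pool.Agent.Q182.EA.mer

end Pool.Agent.Q299.ESB
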