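import Pool.Agent.Q161.ESB.Stm6
import Pool.Agent.Q210.ESB.Fam

set_option autoImplicit false

/-!
# Project ESB (helper161), job LOWW (helper299): from tuples of classes to the weighted count
-/

namespace Pool.Agent.Q299.ESB.Loww

open Finset NumberField IsDedekindDomain Pool.Agent.Q161.ESB Pool.Agent.Q210.ESB
open Pool.Agent.Q161.ESN (oddAt_mul_sq oddNorm_mul_sq)

open scoped Classical

section

variable {F : Type} [Field F] [NumberField F] {N : ℕ}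

/-- many tuples of classes with pairwise disjoint odd supports -/
def Tup (F : Type) [Field F] [NumberField F] (N : ℕ) : Prop := ∃ c X0 : ℝ, 0 < c ∧ 1 ≤ X0 ∧
  ∀ X : ℝ, X0 ≤ X → ∃ 𝒯 : Finset (Fin N → F), (∀ τ ∈ 𝒯, ∀ i, τ i ≠ 0) ∧
    (∀ τ ∈ 𝒯, ∀ v i j, OddAt v (τ i) → OddAt v (τ j) → i = j) ∧
    (∀ τ ∈ 𝒯, ∏ i, ((oddNorm (τ i) : ℕ) : ℝ) ≤ X) ∧
    (∀ τ ∈ 𝒯, ∀ τ' ∈ 𝒯, (∀ i, IsSquare (τ i * τ' i)) → τ = τ') ∧
    c * X * (1 + Real.log X) ^ (N - 1) ≤ 𝒯.card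

theorem oddAt_prod_disj {τ : Fin N → F} (h0 : ∀ i, τ i ≠ 0)
    (hd : ∀ v i j, OddAt v (τ i) → OddAt v (τ j) → i = j) (v : HeightOneSpectrum (𝓞 F)) :
    OddAt v (∏ i, τ i) ↔ ∃ i, OddAt v (τ i) := by
  rw [oddAt_prod τ h0 univ, inter_univ]
  constructor
  · intro h
    by_contra hcon
    push Not at hcon
    rw [filter_eq_empty_iff.2 fun i _ => hcon i, card_empty] at h
    exact absurd h (by decide)
  · rintro ⟨i, hi⟩
    have : (univ.filter fun j => OddAt v (τ j)) = {i} := by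
      ext j
      rw [mem_filter, mem_singleton]
      exact ⟨fun h => hd v j i h.2 hi, fun h => ⟨mem_univ _, h ▸ hi⟩⟩
    rw [this, card_singleton]
    exact odd_one

theorem oddNorm_prod {τ : Fin N → F} (h0 : ∀ i, τ i ≠ 0)
    (hd : ∀ v i j, OddAt v (τ i) → OddAt v (τ j) → i = j) :
    ((oddNorm (∏ i, τ i) : ℕ) : ℝ) = ∏ i, ((oddNorm (τ i) : ℕ) : ℝ) := by
  rw [oddNorm_eq (prod_ne_zero_iff.2 fun i _ => h0 i)]
  have h1 : supp (∏ i, τ i) = univ.biUnion fun i => supp (τ i) := by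
    ext v
    rw [mem_supp (prod_ne_zero_iff.2 fun i _ => h0 i), oddAt_prod_disj h0 hd, mem_biUnion]
    constructor
    · rintro ⟨i, hi⟩
      exact ⟨i, mem_univ _, (mem_supp (h0 i) v).2 hi⟩
    · rintro ⟨i, _, hi⟩
      exact ⟨i, (mem_supp (h0 i) v).1 hi⟩
  rw [h1, prod_biUnion]
  · exact prod_congr rfl fun i _ => (oddNorm_eq (h0 i)).symm
  · intro i _ j _ hij
    rw [Function.onFun, disjoint_left]
    intro v hv hv'
    exact hij (hd v i j ((mem_supp (h0 i) v).1 hv) ((mem_supp (h0 j) v).1 hv'))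

theorem fib {C : ℕ}
    (hC : ∀ (A : Set (HeightOneSpectrum (𝓞 F))) (𝒟 : Finset F),
      (∀ D ∈ 𝒟, D ≠ 0 ∧ ∀ v, OddAt v D ↔ v ∈ A) →
      (∀ D ∈ 𝒟, ∀ D' ∈ 𝒟, D ≠ D' → ¬ IsSquare (D * D')) → 𝒟.card ≤ C)
    (J : Finset (Fin N → F)) (h0 : ∀ τ ∈ J, ∀ i, τ i ≠ 0) (τ0 : Fin N → F)
    (ho : ∀ τ ∈ J, ∀ v i, OddAt v (τ i) ↔ OddAt v (τ0 i))
    (hs : ∀ τ ∈ J, ∀ τ' ∈ J, (∀ i, IsSquare (τ i * τ' i)) → τ = τ') : J.card ≤ C ^ N := by
  have h1 : J.card ≤ (Fintype.piFinset fun j : Fin N => J.image fun τ => rep (τ j)).card := by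
    refine Finset.card_le_card_of_injOn (fun τ j => rep (τ j)) ?_ ?_
    · intro i hi
      simp only [Finset.mem_coe, Fintype.mem_piFinset]
      exact fun j => Finset.mem_image_of_mem _ hi
    · intro i hi i' hi' h
      exact hs i hi i' hi' fun j => square_of_rep (congrFun h j)
  refine h1.trans ?_
  rw [Fintype.card_piFinset]
  refine (Finset.prod_le_pow_card _ _ C fun j _ => ?_).trans (by rw [Finset.card_univ, Fintype.card_fin])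
  refine hC {v | OddAt v (τ0 j)} _ ?_ ?_
  · intro D hD
    obtain ⟨i, hi, rfl⟩ := Finset.mem_image.1 hD
    refine ⟨rep_ne (h0 i hi j), fun v => ?_⟩
    obtain ⟨s, hs0, h⟩ := rep_spec (i j)
    rw [h, oddAt_mul_sq hs0]
    exact ho i hi v j
  · intro D hD D' hD' hne hsq
    obtain ⟨i, hi, rfl⟩ := Finset.mem_image.1 hD
    obtain ⟨i', hi', rfl⟩ := Finset.mem_image.1 hD'
    apply hne
    have := rep_square (rep_ne (h0 i hi j)) (rep_ne (h0 i' hi' j)) hsq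
    rwa [rep_rep, rep_rep] at this

theorem fibD {C : ℕ} (hN : 1 ≤ N)
    (hC : ∀ (A : Set (HeightOneSpectrum (𝓞 F))) (𝒟 : Finset F),
      (∀ D ∈ 𝒟, D ≠ 0 ∧ ∀ v, OddAt v D ↔ v ∈ A) →
      (∀ D ∈ 𝒟, ∀ D' ∈ 𝒟, D ≠ D' → ¬ IsSquare (D * D')) → 𝒟.card ≤ C)
    (J : Finset (Fin N → F)) (h0 : ∀ τ ∈ J, ∀ i, τ i ≠ 0)
    (hd : ∀ τ ∈ J, ∀ v i j, OddAt v (τ i) → OddAt v (τ j) → i = j)
    (hs : ∀ τ ∈ J, ∀ τ' ∈ J, (∀ i, IsSquare (τ i * τ' i)) → τ = τ')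
    (D : F) (hD0 : D ≠ 0) (hD : ∀ τ ∈ J, ∀ v, OddAt v D ↔ ∃ i, OddAt v (τ i)) :
    J.card ≤ C ^ N * N ^ wt D := by
  have hne : Nonempty (Fin N) := ⟨⟨0, hN⟩⟩
  set g : (Fin N → F) → (supp D → Fin N) := fun τ v =>
    if h : ∃ i, OddAt v.1 (τ i) then h.choose else Classical.choice hne with hg
  have hgi : ∀ τ ∈ J, ∀ (v : supp D) (i : Fin N), OddAt v.1 (τ i) → g τ v = i := by
    intro τ hτ v i hi
    have h : ∃ i, OddAt v.1 (τ i) := ⟨i, hi⟩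
    have e : g τ v = h.choose := dif_pos h
    rw [e]
    exact hd τ hτ v.1 _ _ h.choose_spec hi
  have h1 : J.card ≤ C ^ N * (J.image g).card := by
    refine Finset.card_le_mul_card_image J _ ?_
    intro a ha
    obtain ⟨τ0, hτ0, rfl⟩ := Finset.mem_image.1 ha
    refine fib hC _ (fun τ hτ => h0 τ (Finset.mem_filter.1 hτ).1) τ0 ?_
      (fun τ hτ τ' hτ' => hs τ (Finset.mem_filter.1 hτ).1 τ' (Finset.mem_filter.1 hτ').1)
    have key : ∀ τ ∈ J, ∀ τ' ∈ J, g τ = g τ' → ∀ v i, OddAt v (τ i) → OddAt v (τ' i) := by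
      intro τ hτ τ' hτ' he v i hi
      have hv : v ∈ supp D := (mem_supp hD0 v).2 ((hD τ hτ v).2 ⟨i, hi⟩)
      obtain ⟨i', hi'⟩ := (hD τ' hτ' v).1 ((mem_supp hD0 v).1 hv)
      have e1 := hgi τ hτ ⟨v, hv⟩ i hi
      have e2 := hgi τ' hτ' ⟨v, hv⟩ i' hi'
      rw [← he, e1] at e2
      rw [e2]
      exact hi'
    intro τ hτ v i
    obtain ⟨hτ, he⟩ := Finset.mem_filter.1 hτ
    exact ⟨key τ hτ τ0 hτ0 he v i, key τ0 hτ0 τ hτ he.symm v i⟩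
  refine h1.trans (Nat.mul_le_mul_left _ ?_)
  refine (Finset.card_le_univ _).trans ?_
  rw [Fintype.card_fun, Fintype.card_fin, Fintype.card_coe, wt_eq hD0]

theorem loww_of_tup (cls : S_CLS) (hN : 1 ≤ N) (h : Tup F N) : ∃ c X0 : ℝ, 0 < c ∧ 1 ≤ X0 ∧
    ∀ X : ℝ, X0 ≤ X → ∃ 𝒟 : Finset F, Twists X 𝒟 ∧
      c * X * (1 + Real.log X) ^ (N - 1) ≤ ∑ D ∈ 𝒟, (N : ℝ) ^ wt D := by
  obtain ⟨C, hC⟩ := cls F
  obtain ⟨c, X0, hc, hX0, h⟩ := h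
  refine ⟨c / ((C : ℝ) ^ N + 1), X0, by positivity, hX0, fun X hX => ?_⟩
  obtain ⟨𝒯, h0, hd, hn, hs, hcard⟩ := h X hX
  have hne : ∀ τ ∈ 𝒯, ∏ i, τ i ≠ 0 := fun τ hτ => prod_ne_zero_iff.2 fun i _ => h0 τ hτ i
  set P : (Fin N → F) → F := fun τ => rep (∏ i, τ i) with hP
  have hPo : ∀ τ ∈ 𝒯, ∀ v, OddAt v (P τ) ↔ ∃ i, OddAt v (τ i) := by
    intro τ hτ v
    obtain ⟨s, hs0, h⟩ := rep_spec (∏ i, τ i)
    rw [hP]
    show OddAt v (rep (∏ i, τ i)) ↔ _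
    rw [h, oddAt_mul_sq hs0]
    exact oddAt_prod_disj (h0 τ hτ) (hd τ hτ) v
  refine ⟨𝒯.image P, ⟨?_, ?_, ?_⟩, ?_⟩
  · intro D hD
    obtain ⟨τ, hτ, rfl⟩ := mem_image.1 hD
    exact rep_ne (hne τ hτ)
  · intro D hD
    obtain ⟨τ, hτ, rfl⟩ := mem_image.1 hD
    obtain ⟨s, hs0, h⟩ := rep_spec (∏ i, τ i)
    show ((oddNorm (rep (∏ i, τ i)) : ℕ) : ℝ) ≤ X
    rw [h, oddNorm_mul_sq hs0, oddNorm_prod (h0 τ hτ) (hd τ hτ)]
    exact hn τ hτ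
  · intro D hD D' hD' hDD hsq
    obtain ⟨τ, hτ, rfl⟩ := mem_image.1 hD
    obtain ⟨τ', hτ', rfl⟩ := mem_image.1 hD'
    apply hDD
    have := rep_square (rep_ne (hne τ hτ)) (rep_ne (hne τ' hτ')) hsq
    rwa [rep_rep, rep_rep] at this
  · have h1 : (𝒯.card : ℝ) ≤ (C : ℝ) ^ N * ∑ D ∈ 𝒯.image P, (N : ℝ) ^ wt D := by
      rw [Finset.card_eq_sum_card_image P 𝒯, Finset.mul_sum]
      push_cast
      refine Finset.sum_le_sum fun D hD => ?_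
      obtain ⟨τ0, hτ0, rfl⟩ := mem_image.1 hD
      have h2 := fibD hN hC (𝒯.filter fun τ => P τ = P τ0)
        (fun τ hτ => h0 τ (mem_filter.1 hτ).1) (fun τ hτ => hd τ (mem_filter.1 hτ).1)
        (fun τ hτ τ' hτ' => hs τ (mem_filter.1 hτ).1 τ' (mem_filter.1 hτ').1) (P τ0)
        (rep_ne (hne τ0 hτ0)) (fun τ hτ v => by
          rw [← (mem_filter.1 hτ).2]
          exact hPo τ (mem_filter.1 hτ).1 v)
      exact_mod_cast h2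
    have h3 : (0 : ℝ) ≤ ∑ D ∈ 𝒯.image P, (N : ℝ) ^ wt D :=
      Finset.sum_nonneg fun D _ => by positivity
    have h4 := hcard.trans h1
    rw [div_mul_eq_mul_div, div_mul_eq_mul_div, div_le_iff₀ (by positivity)]
    nlinarith

end

end Pool.Agent.Q299.ESB.Loww
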